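import Pool.Agent.Mnh.Defs

/-!
# Base graphs given by tables, with certificates checked by computation

`T : List (List (ℕ × ℕ))`: for every vertex `v` the list of the pairs (index of the edge, other
end). `run` checks a certificate (a number, read in base 256) that no connected 2-factor exists:
a branching tree over the edges (`i`, `o` are the sets of the edges in and out of the 2-factor, as
bit masks), digit `d < 128`: branch on the edge `d` (first in, then out); digit `128 + v`: leaf, the
vertex `v` has at least 3 edges in or at most 1 not out; digit `255`: leaf, followed by a set `X`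
(`n` bits) such that no edge leaving `X` can be used.
-/

set_option autoImplicit false

namespace Pool.Mnh

/-- The entries of the vertex `v`. -/
def nb (T : List (List (ℕ × ℕ))) (v : ℕ) : List (ℕ × ℕ) := T.getD v []

/-- `b` is listed at `a`. -/
def adjT (T : List (List (ℕ × ℕ))) (a b : ℕ) : Bool := (nb T a).any fun p => p.2 == b

/-- The adjacency. -/
def adjB (T : List (List (ℕ × ℕ))) (a b : ℕ) : Bool := a != b && adjT T a b && adjT T b a

/-- The graph of the table. -/
def gr (T : List (List (ℕ × ℕ))) (n : ℕ) : SimpleGraph (Fin n) where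
  Adj a b := adjB T a.val b.val = true
  symm := ⟨fun a b h => by
    simp only [adjB, Bool.and_eq_true, bne_iff_ne] at h ⊢
    exact ⟨⟨h.1.1.symm, h.2⟩, h.1.2⟩⟩
  loopless := ⟨fun a h => by simp [adjB] at h⟩

/-- `E` lists the ends of the edges; the table is consistent with it and symmetric, without
repetitions. -/
def tblOk (T : List (List (ℕ × ℕ))) (n : ℕ) (E : List (ℕ × ℕ)) : Bool :=
  (List.range n).all fun v =>
    decide ((nb T v).map Prod.snd).Nodup &&
    (nb T v).all fun p => decide (p.2 < n) && p.2 != v && (nb T p.2).any (fun q => q == (p.1, v)) &&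
      (E.getD p.1 (0, 0) == (v, p.2) || E.getD p.1 (0, 0) == (p.2, v))

/-- The number of edges in. -/
def cin (L : List (ℕ × ℕ)) (i : ℕ) : ℕ := L.countP fun p => i.testBit p.1

/-- The number of edges not out. -/
def cav (L : List (ℕ × ℕ)) (o : ℕ) : ℕ := L.countP fun p => !o.testBit p.1

/-- `X` is not empty, not everything, and no edge leaving it can be used: it is out, or it is not in
and one of its ends already has two edges in. -/
def cutOk (T : List (List (ℕ × ℕ))) (n X i o : ℕ) : Bool :=
  ((List.range n).any fun v => X.testBit v) && ((List.range n).any fun v => !X.testBit v) &&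
  (List.range n).all fun v => !X.testBit v ||
    (nb T v).all fun p => X.testBit p.2 || o.testBit p.1 ||
      (!i.testBit p.1 && (cin (nb T v) i == 2 || cin (nb T p.2) i == 2))

/-- The checker. -/
def run (T : List (List (ℕ × ℕ))) (n : ℕ) : ℕ → ℕ → ℕ → ℕ → Option ℕ
  | 0, _, _, _ => none
  | f + 1, c, i, o =>
    if Nat.ble (c % 256) 127 then
      match run T n f (c / 256) (i ||| 1 <<< (c % 256)) o with
      | none => none
      | some c1 => run T n f c1 i (o ||| 1 <<< (c % 256))
    else if Nat.ble (c % 256) 254 then
      if Nat.ble (c % 256 - 127) n && (Nat.ble 3 (cin (nb T (c % 256 - 128)) i) ||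
          Nat.ble (cav (nb T (c % 256 - 128)) o) 1) then some (c / 256) else none
    else if cutOk T n (c / 256 % 2 ^ n) i o then some (c / 256 / 2 ^ n) else none

/-- The certificate is accepted. -/
def runOk (T : List (List (ℕ × ℕ))) (n f s : ℕ) : Bool := (run T n f s 0 0).isSome

private theorem Base_lt {α : Type} (r q : α → Bool) (L : List α) (h : ∀ y ∈ L, r y = true → q y = true)
    {p : α} (hp : p ∈ L) (hr : r p = false) (hq : q p = true) : L.countP r < L.countP q := by
  induction L with
  | nil => simp at hp
  | cons a L ih =>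
    have hle : L.countP r ≤ L.countP q :=
      List.countP_mono_left fun y hy => h y (List.mem_cons_of_mem _ hy)
    rw [List.countP_cons, List.countP_cons]
    rcases List.mem_cons.1 hp with rfl | hp'
    · rw [hr, hq]
      simp only [Bool.false_eq_true, if_false, if_true]
      omega
    · have h1 := ih (fun y hy => h y (List.mem_cons_of_mem _ hy)) hp'
      have h2 := h a List.mem_cons_self
      by_cases hra : r a = true
      · rw [if_pos hra, if_pos (h2 hra)]
        omega
      · rw [if_neg hra]
        split <;> omega

private theorem Base_bit (i e e' : ℕ) :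
    (i ||| 1 <<< e).testBit e' = (i.testBit e' || decide (e = e')) := by
  rw [Nat.testBit_or, Nat.one_shiftLeft, Nat.testBit_two_pow]

/-- Soundness of the checker. -/
private theorem Base_run (T : List (List (ℕ × ℕ))) (n : ℕ) (c : ℕ → Bool)
    (h2 : ∀ v < n, (nb T v).countP (fun p => c p.1) = 2)
    (h2' : ∀ v < n, ∀ p ∈ nb T v, p.2 < n ∧ (p.1, v) ∈ nb T p.2)
    (h3 : ∀ X : ℕ, (∃ v < n, X.testBit v = true) → (∃ v < n, X.testBit v = false) →
      ∃ v < n, X.testBit v = true ∧ ∃ p ∈ nb T v, c p.1 = true ∧ X.testBit p.2 = false)
    (f : ℕ) : ∀ s i o s' : ℕ, run T n f s i o = some s' →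
      (∀ e, i.testBit e = true → c e = true) → (∀ e, o.testBit e = true → c e = false) →
      False := by
  induction f with
  | zero => intro s i o s' h; simp [run] at h
  | succ f ih =>
    intro s i o s' h hi ho
    rw [run] at h
    split at h
    · -- branch
      by_cases hc : c (s % 256) = true
      · cases h1 : run T n f (s / 256) (i ||| 1 <<< (s % 256)) o with
        | none => rw [h1] at h; simp at h
        | some c1 =>
          refine ih _ _ _ _ h1 (fun e he => ?_) ho
          rw [Base_bit, Bool.or_eq_true, decide_eq_true_eq] at he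
          rcases he with he | he
          · exact hi e he
          · rw [← he]
            exact hc
      · cases h1 : run T n f (s / 256) (i ||| 1 <<< (s % 256)) o with
        | none => rw [h1] at h; simp at h
        | some c1 =>
          rw [h1] at h
          refine ih _ _ _ _ h hi (fun e he => ?_)
          rw [Base_bit, Bool.or_eq_true, decide_eq_true_eq] at he
          rcases he with he | he
          · exact ho e he
          · rw [← he]
            simpa using hc
    · split at h
      · split at h
        · -- vertex
          rename_i h4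
          rw [Bool.and_eq_true, Nat.ble_eq, Bool.or_eq_true, Nat.ble_eq, Nat.ble_eq] at h4
          rename_i h5 h6
          rw [Nat.ble_eq] at h5 h6
          have hv : s % 256 - 128 < n := by omega
          have h7 := h2 _ hv
          rcases h4.2 with h8 | h8
          · have h9 : cin (nb T (s % 256 - 128)) i ≤ (nb T (s % 256 - 128)).countP
                (fun p => c p.1) := List.countP_mono_left fun p _ hp => hi _ hp
            omega
          · have h9 : (nb T (s % 256 - 128)).countP (fun p => c p.1) ≤
                cav (nb T (s % 256 - 128)) o := List.countP_mono_left fun p _ hp => by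
              by_contra h10
              have h11 : o.testBit p.1 = true := by simpa using h10
              rw [ho _ h11] at hp
              exact absurd hp (by simp)
            omega
        · simp at h
      · split at h
        · -- cut
          rename_i h4
          generalize s / 256 % 2 ^ n = X at h4
          rw [cutOk, Bool.and_eq_true, Bool.and_eq_true, List.any_eq_true, List.any_eq_true,
            List.all_eq_true] at h4
          obtain ⟨⟨⟨v1, hv1, hx1⟩, v2, hv2, hx2⟩, h5⟩ := h4
          obtain ⟨v, hv, hvX, p, hp, hcp, hpX⟩ := h3 _ ⟨v1, List.mem_range.1 hv1, hx1⟩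
            ⟨v2, List.mem_range.1 hv2, by simpa using hx2⟩
          have h6 := h5 v (List.mem_range.2 hv)
          rw [hvX, Bool.not_true, Bool.false_or, List.all_eq_true] at h6
          have h7 := h6 p hp
          have h8 : o.testBit p.1 = false := by
            by_contra h9
            rw [ho _ (by simpa using h9)] at hcp
            exact absurd hcp (by simp)
          rw [hpX, h8, Bool.false_or, Bool.false_or, Bool.and_eq_true, Bool.or_eq_true,
            beq_iff_eq, beq_iff_eq] at h7
          have h9 : i.testBit p.1 = false := by simpa using h7.1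
          rcases h7.2 with h10 | h10
          · have := Base_lt (fun q : ℕ × ℕ => i.testBit q.1) (fun q => c q.1) (nb T v)
              (fun q _ hq => hi _ hq) hp h9 hcp
            rw [h2 v hv] at this
            rw [cin] at h10
            omega
          · obtain ⟨hp2, hp3⟩ := h2' v hv p hp
            have := Base_lt (fun q : ℕ × ℕ => i.testBit q.1) (fun q => c q.1) (nb T p.2)
              (fun q _ hq => hi _ hq) hp3 h9 hcp
            rw [h2 _ hp2] at this
            rw [cin] at h10
            omega
        · simp at h

/-- For `C` with `Fac (gr T n) C` let `c e` (edge `e` used) be: `C.Adj` of the ends `E e` (both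
`< n`). By `tblOk`: `c p.1` iff `C.Adj v p.2` for `v < n`, `p ∈ nb T v`; so
`(nb T v).countP (c ·.1) = 2` by `deg` (every neighbour in `gr T n` is listed exactly once); for a
set `X` of vertices, not empty and not everything, there is a used edge leaving it (`conn`, for
`X.testBit`). Then by induction on the fuel `f`: if `run T n f s i o = some s'` then it is
impossible that all edges of `i` are used and none of `o` (for all `s s' i o`): branch: `e` is
used or not; vertex leaf: `cin ≤ 2 ≤ cav` (`List.countP_mono_left`); cut leaf: the used edge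
`p ∈ nb T v` with `v ∈ X`, `p.2 ∉ X` is not out, so it is not in and `cin = 2` at `v` or at `p.2`;
then `countP` of the used ones is at least 3 there (the entry `(p.1, v)` is in `nb T p.2`). -/
theorem nfac_of_run (T : List (List (ℕ × ℕ))) (n : ℕ) (E : List (ℕ × ℕ)) (f s : ℕ)
    (hT : tblOk T n E = true) (hr : runOk T n f s = true) (C : SimpleGraph (Fin n)) :
    ¬ Fac (gr T n) C := by
  classical
  intro hF
  rw [tblOk, List.all_eq_true] at hT
  have hT1 : ∀ v < n, ((nb T v).map Prod.snd).Nodup ∧ ∀ p ∈ nb T v, p.2 < n ∧
      (p.1, v) ∈ nb T p.2 ∧ (E.getD p.1 (0, 0) = (v, p.2) ∨ E.getD p.1 (0, 0) = (p.2, v)) := by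
    intro v hv
    have h1 := hT v (List.mem_range.2 hv)
    rw [Bool.and_eq_true, decide_eq_true_eq, List.all_eq_true] at h1
    refine ⟨h1.1, fun p hp => ?_⟩
    have h2 := h1.2 p hp
    simp only [Bool.and_eq_true, decide_eq_true_eq, List.any_eq_true, beq_iff_eq,
      Bool.or_eq_true] at h2
    obtain ⟨⟨⟨h3, _⟩, q, hq, hq2⟩, h4⟩ := h2
    rw [hq2] at hq
    exact ⟨h3, hq, h4⟩
  let C' : ℕ → ℕ → Prop := fun a b => ∃ (ha : a < n) (hb : b < n), C.Adj ⟨a, ha⟩ ⟨b, hb⟩
  have hsymm : ∀ a b, C' a b → C' b a := fun a b ⟨ha, hb, h⟩ => ⟨hb, ha, h.symm⟩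
  let c : ℕ → Bool := fun e => decide (C' (E.getD e (0, 0)).1 (E.getD e (0, 0)).2)
  have hc : ∀ v < n, ∀ p ∈ nb T v, (c p.1 = true ↔ C' v p.2) := by
    intro v hv p hp
    obtain ⟨_, _, h3⟩ := (hT1 v hv).2 p hp
    simp only [c, decide_eq_true_eq]
    rcases h3 with h3 | h3
    · rw [h3]
    · rw [h3]
      exact ⟨hsymm _ _, hsymm _ _⟩
  have hmem : ∀ v w, C' v w → ∃ p ∈ nb T v, p.2 = w := by
    rintro v w ⟨hv, hw, h⟩
    have h1 : adjB T v w = true := hF.le _ _ h
    rw [adjB, Bool.and_eq_true, Bool.and_eq_true, adjT, List.any_eq_true] at h1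
    obtain ⟨p, hp, hp2⟩ := h1.1.2
    exact ⟨p, hp, by simpa using hp2⟩
  have h2 : ∀ v < n, (nb T v).countP (fun p => c p.1) = 2 := by
    intro v hv
    obtain ⟨a, b, hab, h⟩ := hF.deg ⟨v, hv⟩
    rw [List.countP_eq_length_filter]
    have hnd : (((nb T v).filter fun p => c p.1).map Prod.snd).Nodup :=
      (hT1 v hv).1.sublist ((List.filter_sublist).map _)
    have hset : (((nb T v).filter fun p => c p.1).map Prod.snd).toFinset =
        {a.val, b.val} := by
      ext w
      rw [List.mem_toFinset, List.mem_map, Finset.mem_insert, Finset.mem_singleton]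
      constructor
      · rintro ⟨p, hp, rfl⟩
        rw [List.mem_filter] at hp
        obtain ⟨h3, h4, h5⟩ := (hc v hv p hp.1).1 hp.2
        rcases (h _).1 h5 with h6 | h6
        · left
          exact congrArg Fin.val h6
        · right
          exact congrArg Fin.val h6
      · intro hw
        have h3 : C' v w := by
          rcases hw with rfl | rfl
          · exact ⟨hv, a.2, (h a).2 (Or.inl rfl)⟩
          · exact ⟨hv, b.2, (h b).2 (Or.inr rfl)⟩
        obtain ⟨p, hp, hpw⟩ := hmem _ _ h3
        refine ⟨p, List.mem_filter.2 ⟨hp, (hc v hv p hp).2 (by rw [hpw]; exact h3)⟩, hpw⟩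
    have h3 := List.toFinset_card_of_nodup hnd
    rw [hset, List.length_map, Finset.card_pair (fun h4 => hab (Fin.ext h4))] at h3
    exact h3.symm
  have h3 : ∀ X : ℕ, (∃ v < n, X.testBit v = true) → (∃ v < n, X.testBit v = false) →
      ∃ v < n, X.testBit v = true ∧ ∃ p ∈ nb T v, c p.1 = true ∧ X.testBit p.2 = false := by
    rintro X ⟨v1, hv1, hx1⟩ ⟨v2, hv2, hx2⟩
    by_contra hcon
    have h4 := hF.conn (fun u => X.testBit u.val = true) ⟨⟨v1, hv1⟩, hx1⟩ (by
      intro u w huw hu
      by_contra hw
      apply hcon
      obtain ⟨p, hp, hpw⟩ := hmem u.val w.val ⟨u.2, w.2, huw⟩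
      refine ⟨u.val, u.2, hu, p, hp, (hc _ u.2 p hp).2 ?_, ?_⟩
      · rw [hpw]
        exact ⟨u.2, w.2, huw⟩
      · rw [hpw]
        simpa using hw) ⟨v2, hv2⟩
    rw [hx2] at h4
    exact absurd h4 (by simp)
  rw [runOk, Option.isSome_iff_exists] at hr
  obtain ⟨s', hs'⟩ := hr
  refine Base_run T n c h2 (fun v hv p hp => ⟨((hT1 v hv).2 p hp).1, ((hT1 v hv).2 p hp).2.1⟩)
    h3 f s 0 0 s' hs' (fun e he => ?_) (fun e he => ?_)
  · simp at he
  · simp at he

end Pool.Mnh
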