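import Pool.Agent.Mnh.BaseQ
import Pool.Agent.Mnh.Tools

/-! Base graphs: paths given by lists, checked by computation. -/

set_option autoImplicit false

namespace Pool.Mnh

/-- The pairs `u < v` in order. -/
def prs (n : ℕ) : List (ℕ × ℕ) :=
  (List.range n).flatMap fun u => ((List.range n).filter fun v => Nat.blt u v).map fun v => (u, v)

/-- `ls` contains paths for the nonadjacent pairs, in order. -/
def pairsOk (T : List (List (ℕ × ℕ))) (n : ℕ) : List (ℕ × ℕ) → List (List ℕ) → Bool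
  | [], _ => true
  | (u, v) :: ps, ls =>
    if adjB T u v then pairsOk T n ps ls
    else match ls with
      | [] => false
      | l :: ls => pok T n [] l u v && pairsOk T n ps ls

private theorem baseP_mem {T : List (List (ℕ × ℕ))} {n : ℕ} : ∀ (ps : List (ℕ × ℕ))
    (ls : List (List ℕ)), pairsOk T n ps ls = true → ∀ u v : Fin n, (u.val, v.val) ∈ ps →
    ¬ (gr T n).Adj u v → HP (gr T n) (fun _ => True) u v
  | [], _, _, _, _, hm, _ => absurd hm List.not_mem_nil
  | (a, b) :: ps, ls, h, u, v, hm, hn => by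
    unfold pairsOk at h
    by_cases hab : adjB T a b = true
    · rw [if_pos hab] at h
      rcases List.mem_cons.1 hm with h1 | h1
      · rw [Prod.mk.injEq] at h1
        exact absurd (show adjB T u.val v.val = true by rw [h1.1, h1.2]; exact hab) hn
      · exact baseP_mem ps ls h u v h1 hn
    · rw [if_neg hab] at h
      match ls, h with
      | l :: ls, h =>
        simp only [Bool.and_eq_true] at h
        rcases List.mem_cons.1 hm with h1 | h1
        · rw [Prod.mk.injEq] at h1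
          have h2 : pok T n [] l u.val v.val = true := by rw [h1.1, h1.2]; exact h.1
          refine (pok_sound h2 u.2 v.2).congr fun w => ?_
          simp
        · exact baseP_mem ps ls h.2 u v h1 hn

private theorem baseP_prs {n : ℕ} (u v : Fin n) (h : u.val < v.val) :
    (u.val, v.val) ∈ prs n := by
  unfold prs
  rw [List.mem_flatMap]
  refine ⟨u.val, List.mem_range.2 u.2, List.mem_map.2 ⟨v.val, ?_, rfl⟩⟩
  rw [List.mem_filter]
  refine ⟨List.mem_range.2 v.2, ?_⟩
  rw [Nat.blt_eq]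
  exact h

theorem pairs_of_ok {T : List (List (ℕ × ℕ))} {n : ℕ} {ls : List (List ℕ)}
    (h : pairsOk T n (prs n) ls = true) (u v : Fin n) (huv : u ≠ v) (hn : ¬ (gr T n).Adj u v) :
    HP (gr T n) (fun _ => True) u v := by
  rcases lt_or_gt_of_ne (fun h' => huv (Fin.ext h') : u.val ≠ v.val) with h1 | h1
  · exact baseP_mem _ _ h u v (baseP_prs u v h1) hn
  · exact (baseP_mem _ _ h v u (baseP_prs v u h1) fun h2 => hn h2.symm).symm

/-- The paths of the condition `dd`. -/
def ddOk (T : List (List (ℕ × ℕ))) (n x t0 t1 t2 : ℕ) (D : List (List ℕ)) : Bool :=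
  (List.range n).all fun u => u == x || u == t0 || u == t1 || u == t2 ||
    pok T n [x, t0, t2] (D.getD u []) u t1 || pok T n [x, t0, t1] (D.getD u []) u t2

/-- No triangle. -/
def triOk (T : List (List (ℕ × ℕ))) (n : ℕ) : Bool :=
  (List.range n).all fun u => (nb T u).all fun p => (nb T p.2).all fun q => !adjB T u q.2

/-- The remaining conditions. -/
def restOk (T : List (List (ℕ × ℕ))) (n x t0 t1 t2 a b c d : ℕ) (r0 r1 r2 : List ℕ)
    (D : List (List ℕ)) : Bool :=
  decide (x < n ∧ t0 < n ∧ t1 < n ∧ t2 < n ∧ a < n ∧ b < n ∧ c < n ∧ d < n ∧ 5 ≤ n) &&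
  decide (t0 ≠ t1 ∧ t0 ≠ t2 ∧ t1 ≠ t2 ∧ a ≠ x ∧ b ≠ x ∧ c ≠ x ∧ d ≠ x ∧ a ≠ c ∧ b ≠ d) &&
  adjB T x t0 && adjB T x t1 && adjB T x t2 &&
  ((nb T x).all fun p => p.2 == t0 || p.2 == t1 || p.2 == t2) &&
  adjB T a b && adjB T b c && adjB T c d && adjB T d a && triOk T n &&
  pok T n [x, t0] r0 t1 t2 && pok T n [x, t1] r1 t0 t2 && pok T n [x, t2] r2 t0 t1 &&
  ddOk T n x t0 t1 t2 D

theorem good_of_ok {T : List (List (ℕ × ℕ))} {n : ℕ} {E : List (ℕ × ℕ)} {f s : ℕ}
    {ls D : List (List ℕ)} {x t0 t1 t2 a b c d : ℕ} {r0 r1 r2 : List ℕ}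
    (h1 : tblOk T n E = true) (h2 : runOk T n f s = true) (h3 : pairsOk T n (prs n) ls = true)
    (h4 : restOk T n x t0 t1 t2 a b c d r0 r1 r2 D = true) :
    ∃ x t0 t1 t2 : Fin n, Good (gr T n) x t0 t1 t2 := by
  simp only [restOk, Bool.and_eq_true, decide_eq_true_eq] at h4
  obtain ⟨⟨⟨⟨⟨⟨⟨⟨⟨⟨⟨⟨⟨⟨⟨hx, ht0, ht1, ht2, ha, hb, hc, hd, hn5⟩, h01, h02, h12, hax, hbx, hcx,
    hdx, hac, hbd⟩, hx0⟩, hx1⟩, hx2⟩, hnb⟩, hab⟩, hbc⟩, hcd⟩, hda⟩, htri⟩, hr0⟩, hr1⟩, hr2⟩,
    hdd⟩ := h4
  have hlist : ∀ u v : ℕ, adjB T u v = true → ∃ p ∈ nb T u, p.2 = v := by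
    intro u v h
    simp only [adjB, Bool.and_eq_true, adjT, List.any_eq_true, beq_iff_eq] at h
    exact h.1.2
  refine ⟨⟨x, hx⟩, ⟨t0, ht0⟩, ⟨t1, ht1⟩, ⟨t2, ht2⟩, ?_⟩
  refine
    { nfac := nfac_of_run T n E f s h1 h2
      pairs := pairs_of_ok h3
      tri := ?_
      four := ⟨⟨a, ha⟩, ⟨b, hb⟩, ⟨c, hc⟩, ⟨d, hd⟩, ?_, ?_, ?_, ?_, ?_, ?_, hab, hbc, hcd, hda⟩
      nbr := ?_
      t01 := ?_
      t02 := ?_
      t12 := ?_
      far := ?_
      r0 := ?_
      r1 := ?_
      r2 := ?_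
      dd := ?_ }
  · intro u v w huv hvw huw
    obtain ⟨p, hp, hpv⟩ := hlist _ _ huv
    obtain ⟨q, hq, hqw⟩ := hlist _ _ hvw
    simp only [triOk, List.all_eq_true, List.mem_range] at htri
    have h5 := htri u.val u.2 p hp q (by rw [hpv]; exact hq)
    rw [hqw] at h5
    have h6 : adjB T u.val w.val = true := huw
    rw [h6] at h5
    exact absurd h5 (by decide)
  · exact fun h => hax (congrArg Fin.val h)
  · exact fun h => hbx (congrArg Fin.val h)
  · exact fun h => hcx (congrArg Fin.val h)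
  · exact fun h => hdx (congrArg Fin.val h)
  · exact fun h => hac (congrArg Fin.val h)
  · exact fun h => hbd (congrArg Fin.val h)
  · intro w
    constructor
    · intro h
      obtain ⟨p, hp, hpw⟩ := hlist _ _ h
      rw [List.all_eq_true] at hnb
      have h5 := hnb p hp
      simp only [Bool.or_eq_true, beq_iff_eq] at h5
      rw [hpw] at h5
      rcases h5 with (h5 | h5) | h5
      · exact Or.inl (Fin.ext h5)
      · exact Or.inr (Or.inl (Fin.ext h5))
      · exact Or.inr (Or.inr (Fin.ext h5))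
    · rintro (rfl | rfl | rfl)
      · exact hx0
      · exact hx1
      · exact hx2
  · exact fun h => h01 (congrArg Fin.val h)
  · exact fun h => h02 (congrArg Fin.val h)
  · exact fun h => h12 (congrArg Fin.val h)
  · by_contra hcon
    have h5 : (Finset.univ : Finset (Fin n)) ⊆
        {(⟨x, hx⟩ : Fin n), ⟨t0, ht0⟩, ⟨t1, ht1⟩, ⟨t2, ht2⟩} := by
      intro w _
      by_contra hw
      simp only [Finset.mem_insert, Finset.mem_singleton, not_or] at hw
      exact hcon ⟨w, hw.1, hw.2.1, hw.2.2.1, hw.2.2.2⟩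
    have h6 := Finset.card_le_card h5
    rw [Finset.card_univ, Fintype.card_fin] at h6
    have h7 := h6.trans Finset.card_le_four
    omega
  · refine (pok_sound hr0 ht1 ht2).congr fun w => ?_
    simp [Fin.ext_iff]
  · refine (pok_sound hr1 ht0 ht2).congr fun w => ?_
    simp [Fin.ext_iff]
  · refine (pok_sound hr2 ht0 ht1).congr fun w => ?_
    simp [Fin.ext_iff]
  · intro u hux hu0 hu1 hu2
    simp only [ddOk, List.all_eq_true, List.mem_range, Bool.or_eq_true, beq_iff_eq] at hdd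
    rcases hdd u.val u.2 with ((((h5 | h5) | h5) | h5) | h5) | h5
    · exact absurd (Fin.ext h5) hux
    · exact absurd (Fin.ext h5) hu0
    · exact absurd (Fin.ext h5) hu1
    · exact absurd (Fin.ext h5) hu2
    · refine Or.inl ((pok_sound h5 u.2 ht1).congr fun w => ?_)
      simp [Fin.ext_iff]
    · refine Or.inr ((pok_sound h5 u.2 ht2).congr fun w => ?_)
      simp [Fin.ext_iff]

end Pool.Mnh
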