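import Mathlib

/-!
# Maximally nonhamiltonian graphs of girth four: definitions

`HP G S u v`: a path of `G` from `u` to `v` (as a list) whose vertices are exactly those
satisfying `S`. `Fac G C`: `C` is a connected 2-factor of `G` (a Hamilton cycle as a graph).
`Good G x t0 t1 t2`: the inductive hypothesis of the construction. `phi G x t0 t1 t2`: the vertex
`x` (neighbours `t0, t1, t2`) is replaced by a hexagon `h0, ..., h5`, `h0 = inl x`,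
`h (i+1) = inr i`, with `ti` adjacent to `hi` and `h(i+3)`.
-/

set_option autoImplicit false

namespace Pool.Mnh

variable {V : Type}

/-- A path of `G` from `u` to `v` whose vertices are exactly those satisfying `S`. -/
def HP (G : SimpleGraph V) (S : V → Prop) (u v : V) : Prop :=
  ∃ l : List V, l.Nodup ∧ l.IsChain G.Adj ∧ l.head? = some u ∧ l.getLast? = some v ∧
    ∀ w, w ∈ l ↔ S w

/-- `C` is a connected 2-factor of `G`. -/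
structure Fac (G C : SimpleGraph V) : Prop where
  le : ∀ u v, C.Adj u v → G.Adj u v
  deg : ∀ v, ∃ a b, a ≠ b ∧ ∀ w, C.Adj v w ↔ w = a ∨ w = b
  conn : ∀ X : V → Prop, (∃ u, X u) → (∀ u w, C.Adj u w → X u → X w) → ∀ v, X v

/-- The inductive hypothesis. -/
structure Good (G : SimpleGraph V) (x t0 t1 t2 : V) : Prop where
  nfac : ∀ C, ¬ Fac G C
  pairs : ∀ u v, u ≠ v → ¬ G.Adj u v → HP G (fun _ => True) u v
  tri : ∀ u v w, G.Adj u v → G.Adj v w → ¬ G.Adj u w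
  four : ∃ a b c d, a ≠ x ∧ b ≠ x ∧ c ≠ x ∧ d ≠ x ∧ a ≠ c ∧ b ≠ d ∧
    G.Adj a b ∧ G.Adj b c ∧ G.Adj c d ∧ G.Adj d a
  nbr : ∀ w, G.Adj x w ↔ w = t0 ∨ w = t1 ∨ w = t2
  t01 : t0 ≠ t1
  t02 : t0 ≠ t2
  t12 : t1 ≠ t2
  far : ∃ a, a ≠ x ∧ a ≠ t0 ∧ a ≠ t1 ∧ a ≠ t2
  r0 : HP G (fun w => w ≠ x ∧ w ≠ t0) t1 t2
  r1 : HP G (fun w => w ≠ x ∧ w ≠ t1) t0 t2
  r2 : HP G (fun w => w ≠ x ∧ w ≠ t2) t0 t1
  dd : ∀ u, u ≠ x → u ≠ t0 → u ≠ t1 → u ≠ t2 →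
    HP G (fun w => w ≠ x ∧ w ≠ t0 ∧ w ≠ t2) u t1 ∨ HP G (fun w => w ≠ x ∧ w ≠ t0 ∧ w ≠ t1) u t2

/-- The adjacency of `phi`. -/
def phiAdj (G : SimpleGraph V) (x t0 t1 t2 : V) : V ⊕ Fin 5 → V ⊕ Fin 5 → Prop
  | .inl u, .inl w => G.Adj u w ∧ ¬ (u = x ∧ w ≠ t0) ∧ ¬ (w = x ∧ u ≠ t0)
  | .inl u, .inr i => (u = x ∧ (i = 0 ∨ i = 4)) ∨ (u = t0 ∧ i = 2) ∨
      (u = t1 ∧ (i = 0 ∨ i = 3)) ∨ (u = t2 ∧ (i = 1 ∨ i = 4))
  | .inr i, .inl u => (u = x ∧ (i = 0 ∨ i = 4)) ∨ (u = t0 ∧ i = 2) ∨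
      (u = t1 ∧ (i = 0 ∨ i = 3)) ∨ (u = t2 ∧ (i = 1 ∨ i = 4))
  | .inr i, .inr j => (i : ℕ) + 1 = j ∨ (j : ℕ) + 1 = i

/-- The vertex `x` is replaced by a hexagon. -/
def phi (G : SimpleGraph V) (x t0 t1 t2 : V) : SimpleGraph (V ⊕ Fin 5) where
  Adj := phiAdj G x t0 t1 t2
  symm := ⟨by
    rintro (u | i) (w | j) h
    · exact ⟨h.1.symm, h.2.2, h.2.1⟩
    · exact h
    · exact h
    · exact h.symm⟩
  loopless := ⟨by
    rintro (u | i) h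
    · exact G.loopless.irrefl u h.1
    · rcases h with h | h <;> omega⟩

/-- The vertices of the gadget: `h0, ..., h5, t0, t1, t2`. -/
def gv (x t0 t1 t2 : V) : Fin 9 → V ⊕ Fin 5 :=
  ![.inl x, .inr 0, .inr 1, .inr 2, .inr 3, .inr 4, .inl t0, .inl t1, .inl t2]

/-- The adjacency in the gadget. -/
def gadj (p q : Fin 9) : Bool :=
  (p < 6 && q < 6 && ((p.val + 1) % 6 == q.val || (q.val + 1) % 6 == p.val)) ||
  (p < 6 && 6 ≤ q && p.val % 3 + 6 == q.val) || (q < 6 && 6 ≤ p && q.val % 3 + 6 == p.val)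

end Pool.Mnh
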