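import Pool.Agent.Mnh.Defs

/-! A Hamilton path between nonadjacent vertices and the added edge. -/

set_option autoImplicit false

namespace Pool.Mnh

variable {V : Type} {G : SimpleGraph V} {u v : V}

/-- A chain is the support of a walk. -/
theorem hamA_walk (l : List V) : ∀ u v : V, l.IsChain G.Adj → l.head? = some u →
    l.getLast? = some v → ∃ p : G.Walk u v, p.support = l := by
  induction l with
  | nil => intro u v _ h _; simp at h
  | cons a l ih =>
    intro u v hc hu hv
    simp only [List.head?_cons, Option.some.injEq] at hu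
    subst hu
    cases l with
    | nil =>
      simp only [List.getLast?_singleton, Option.some.injEq] at hv
      subst hv
      exact ⟨SimpleGraph.Walk.nil, rfl⟩
    | cons b l =>
      rw [List.isChain_cons_cons] at hc
      obtain ⟨p, hp⟩ := ih b v hc.2 rfl (by rw [List.getLast?_cons_cons] at hv; exact hv)
      exact ⟨SimpleGraph.Walk.cons hc.1 p, by rw [SimpleGraph.Walk.support_cons, hp]⟩

/-- The list is the support of a walk `p : G.Walk u v` (induction on the list), a Hamiltonian path;
`Walk.cons (edge v u) (p.mapLe ..)` is a cycle by `Walk.cons_isCycle_iff` (`s(v, u)` is not an edge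
of `p` as it is not one of `G`), of length `card V`
(`isHamiltonianCycle_iff_isCycle_and_length_eq`). -/
theorem isHamiltonian_of_HP [Fintype V] [DecidableEq V] (huv : u ≠ v) (hn : ¬ G.Adj u v)
    (h : HP G (fun _ => True) u v) : (G ⊔ SimpleGraph.edge u v).IsHamiltonian := by
  obtain ⟨l, hnd, hc, hu, hv, hall⟩ := h
  obtain ⟨p, hp⟩ := hamA_walk l u v hc hu hv
  have hpath : p.IsPath := SimpleGraph.Walk.IsPath.mk' (by rw [hp]; exact hnd)
  have hham : p.IsHamiltonian := hpath.isHamiltonian_of_mem (fun w => by
    rw [hp]; exact (hall w).2 trivial)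
  have hlen : p.length = Fintype.card V - 1 := hham.length_eq
  have hle : G ≤ G ⊔ SimpleGraph.edge u v := le_sup_left
  have hadj : (G ⊔ SimpleGraph.edge u v).Adj v u := by
    rw [SimpleGraph.sup_adj]
    right
    rw [SimpleGraph.edge_adj]
    exact ⟨Or.inr ⟨rfl, rfl⟩, huv.symm⟩
  intro _
  refine ⟨v, SimpleGraph.Walk.cons hadj (p.mapLe hle), ?_⟩
  rw [SimpleGraph.Walk.isHamiltonianCycle_iff_isCycle_and_length_eq]
  constructor
  · rw [SimpleGraph.Walk.cons_isCycle_iff]
    constructor
    · exact hpath.mapLe hle
    · intro hmem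
      rw [SimpleGraph.Walk.edges_mapLe_eq_edges] at hmem
      exact hn (p.adj_of_mem_edges hmem).symm
  · have : 0 < Fintype.card V := Fintype.card_pos_iff.2 ⟨u⟩
    rw [SimpleGraph.Walk.length_cons, SimpleGraph.Walk.length_map, hlen]
    omega

end Pool.Mnh
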