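import Pool.Agent.Mnh.Defs

/-! Girth four. -/

set_option autoImplicit false

namespace Pool.Mnh

variable {V : Type} {G : SimpleGraph V} {u v : V}

/-- No cycle of length 3 (`tri`), a cycle of length 4 (`a b c d`):
`SimpleGraph.exists_girth_eq_length`, `girth_le_length`. -/
theorem girth_eq_four (htri : ∀ u v w, G.Adj u v → G.Adj v w → ¬ G.Adj u w)
    (hf : ∃ a b c d, a ≠ c ∧ b ≠ d ∧ G.Adj a b ∧ G.Adj b c ∧ G.Adj c d ∧ G.Adj d a) :
    G.girth = 4 := by
  obtain ⟨a, b, c, d, hac, hbd, hab, hbc, hcd, hda⟩ := hf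
  -- the 4-cycle
  have hcyc : ((SimpleGraph.Walk.cons hab (SimpleGraph.Walk.cons hbc
      (SimpleGraph.Walk.cons hcd (SimpleGraph.Walk.cons hda SimpleGraph.Walk.nil)))) :
      G.Walk a a).IsCycle := by
    rw [SimpleGraph.Walk.cons_isCycle_iff]
    have h1 := hab.ne
    have h2 := hbc.ne
    have h3 := hcd.ne
    have h4 := hda.ne
    constructor
    · simp [SimpleGraph.Walk.cons_isPath_iff, SimpleGraph.Walk.support_cons]
      refine ⟨⟨?_, ?_⟩, ?_⟩ <;> tauto
    · simp [SimpleGraph.Walk.edges_cons]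
      tauto
  have hle : G.girth ≤ 4 := by
    have := SimpleGraph.girth_le_length hcyc
    simpa using this
  have hacyc : ¬ G.IsAcyclic := fun h => h _ hcyc
  have h3 : 3 ≤ G.girth := SimpleGraph.three_le_girth hacyc
  have hne : G.girth ≠ 3 := by
    intro h
    obtain ⟨x, w, hw, hl⟩ := SimpleGraph.exists_girth_eq_length.mpr hacyc
    rw [h] at hl
    match w, hw, hl with
    | .cons h1 (.cons h2 (.cons h3 .nil)), hw, hl =>
      exact htri _ _ _ h1 h2 h3.symm
  omega

end Pool.Mnh
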