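import Pool.Agent.Mnh.Tools
import Pool.Agent.Mnh.HamA
import Pool.Agent.Mnh.HamB
import Pool.Agent.Mnh.HamC

/-! Transport to `Fin n`. -/

set_option autoImplicit false

namespace Pool.Mnh

variable {V : Type} {G : SimpleGraph V} {x t0 t1 t2 : V}

/-- A connected 2-factor of the transported graph gives one of `G`. -/
private theorem ham_fac_comap {n : ℕ} (e : V ≃ Fin n) {C : SimpleGraph (Fin n)}
    (hC : Fac (G.comap e.symm) C) : Fac G (C.comap e) where
  le u v h := by
    have := hC.le (e u) (e v) h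
    simpa using this
  deg v := by
    obtain ⟨a, b, hab, h⟩ := hC.deg (e v)
    refine ⟨e.symm a, e.symm b, fun h' => hab (e.symm.injective h'), fun w => ?_⟩
    rw [SimpleGraph.comap_adj, h (e w), Equiv.eq_symm_apply, Equiv.eq_symm_apply]
  conn X hX hs v := by
    have := hC.conn (fun i => X (e.symm i)) (by
      obtain ⟨u, hu⟩ := hX
      exact ⟨e u, by simpa using hu⟩) (fun i j hij hi => by
        refine hs (e.symm i) (e.symm j) ?_ hi
        simpa using hij) (e v)
    simpa using this

/-- `G' = G.comap e.symm` for `e : V ≃ Fin n`. `nfac`, `pairs` (`HP.map`), `tri`, `four` pass to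
`G'`; then `exists_fac` (`n ≠ 1` by `far`), `isHamiltonian_of_HP`, `girth_eq_four`. -/
theorem of_good [Fintype V] (hG : Good G x t0 t1 t2) {n : ℕ} (hn : Fintype.card V = n) :
    ∃ G' : SimpleGraph (Fin n), ¬ G'.IsHamiltonian ∧
      (∀ u v : Fin n, u ≠ v → ¬ G'.Adj u v → (G' ⊔ SimpleGraph.edge u v).IsHamiltonian) ∧
      G'.girth = 4 := by
  classical
  let e : V ≃ Fin n := Fintype.equivFinOfCardEq hn
  have hcard : Fintype.card (Fin n) ≠ 1 := by
    rw [Fintype.card_fin, ← hn]
    intro h1
    obtain ⟨a, ha, -⟩ := hG.far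
    exact ha ((Fintype.card_le_one_iff.mp h1.le) a x)
  refine ⟨G.comap e.symm, ?_, ?_, ?_⟩
  · intro h
    obtain ⟨C, hC⟩ := exists_fac hcard h
    exact hG.nfac _ (ham_fac_comap e hC)
  · intro u v huv hadj
    refine isHamiltonian_of_HP huv hadj ?_
    have h1 : HP G (fun _ => True) (e.symm u) (e.symm v) :=
      hG.pairs _ _ (fun h' => huv (e.symm.injective h')) hadj
    have h2 := HP.map e e.injective (G.comap e.symm) (fun a b _ _ hab => by
      rw [SimpleGraph.comap_adj]; simpa using hab) h1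
    rw [Equiv.apply_symm_apply, Equiv.apply_symm_apply] at h2
    exact h2.congr fun w => ⟨fun _ => trivial, fun _ => ⟨e.symm w, trivial, by simp⟩⟩
  · refine girth_eq_four (fun u v w h1 h2 => hG.tri _ _ _ h1 h2) ?_
    obtain ⟨a, b, c, d, -, -, -, -, hac, hbd, h1, h2, h3, h4⟩ := hG.four
    refine ⟨e a, e b, e c, e d, fun h => hac (e.injective h), fun h => hbd (e.injective h),
      ?_, ?_, ?_, ?_⟩ <;> rw [SimpleGraph.comap_adj] <;> simpa

end Pool.Mnh
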