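import Pool.Agent.Mnh.Tools

/-! Hamilton paths of `phi` from lists of vertices of the gadget and paths of `G`. -/

set_option autoImplicit false

namespace Pool.Mnh

variable {V : Type} {G : SimpleGraph V} {u x t0 t1 t2 : V}

/-- The chain condition, as a Boolean. -/
def gch : List (Fin 9) → Bool
  | [] => true
  | [_] => true
  | a :: b :: l => gadj a b && gch (b :: l)

/-- `l1` leads from `p` to some `t` and `l2` from another `t` to `q`; `l1`, `l2`, `ex` together
contain every vertex of the gadget exactly once, and `0` (that is `x`) and the third `t`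
are among them. -/
def okJ (l1 l2 ex : List (Fin 9)) (p q : Fin 9) : Bool :=
  gch l1 && gch l2 && decide ((l1 ++ (l2 ++ ex)).Nodup) && decide ((l1 ++ (l2 ++ ex)).length = 9) &&
  decide (l1.head? = some p) && decide (l2.getLast? = some q) &&
  (decide (l1.getLast? = some 6) || decide (l1.getLast? = some 7) ||
    decide (l1.getLast? = some 8)) &&
  (decide (l2.head? = some 6) || decide (l2.head? = some 7) || decide (l2.head? = some 8))

private theorem chain_Jump : ∀ l : List (Fin 9), gch l = true →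
    l.IsChain (fun a b => gadj a b = true)
  | [], _ => List.IsChain.nil
  | [_], _ => List.IsChain.singleton _
  | a :: b :: l, h => by
    rw [gch, Bool.and_eq_true] at h
    exact List.IsChain.cons_cons h.1 (chain_Jump (b :: l) h.2)

private theorem right_Jump (hG : Good G x t0 t1 t2) : ∀ (l : List (Fin 9)) (b q : Fin 9)
    (S : V ⊕ Fin 5 → Prop) (u : V ⊕ Fin 5), (b :: l).IsChain (fun a b => gadj a b = true) →
    (b :: l).Nodup → (b :: l).getLast? = some q → (∀ e ∈ l, ¬ S (gv x t0 t1 t2 e)) →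
    HP (phi G x t0 t1 t2) S u (gv x t0 t1 t2 b) →
    HP (phi G x t0 t1 t2) (fun w => S w ∨ ∃ e ∈ l, gv x t0 t1 t2 e = w) u (gv x t0 t1 t2 q)
  | [], b, q, S, u, _, _, hq, _, h => by
    have hbq : b = q := by simpa using hq
    subst hbq
    exact h.congr fun w => by simp
  | d :: l, b, q, S, u, hc, hn, hq, hS, h => by
    have hc2 : gadj b d = true ∧ (d :: l).IsChain (fun a b => gadj a b = true) := by
      cases hc with
      | cons_cons h1 h2 => exact ⟨h1, h2⟩
    have hn2 : (d :: l).Nodup := (List.nodup_cons.mp hn).2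
    have hd : d ∉ l := (List.nodup_cons.mp hn2).1
    have h1 : HP (phi G x t0 t1 t2) (fun w => ∃ a ∈ [d], gv x t0 t1 t2 a = w)
        (gv x t0 t1 t2 d) (gv x t0 t1 t2 d) :=
      HP.gad hG [d] d d (List.nodup_singleton d) (List.IsChain.singleton _) rfl rfl
    have h2 := h.append h1 (fun w hw hw' => by
      obtain ⟨a, ha, rfl⟩ := hw'
      rw [List.mem_singleton] at ha
      subst ha
      exact hS a List.mem_cons_self hw) (gv_adj hG b d hc2.1)
    have h3 := right_Jump hG l d q _ u hc2.2 hn2 (by simpa using hq) (fun e he hw => by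
      rcases hw with hw | ⟨a, ha, hw⟩
      · exact hS e (List.mem_cons_of_mem _ he) hw
      · rw [List.mem_singleton] at ha
        subst ha
        have := gv_inj hG hw
        subst this
        exact hd he) h2
    refine h3.congr fun w => ?_
    constructor
    · rintro ((hw | ⟨a, ha, hw⟩) | ⟨a, ha, hw⟩)
      · exact Or.inl hw
      · rw [List.mem_singleton] at ha
        exact Or.inr ⟨a, by rw [ha]; exact List.mem_cons_self, hw⟩
      · exact Or.inr ⟨a, List.mem_cons_of_mem _ ha, hw⟩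
    · rintro (hw | ⟨a, ha, hw⟩)
      · exact Or.inl (Or.inl hw)
      · rcases List.mem_cons.mp ha with ha | ha
        · exact Or.inl (Or.inr ⟨a, by rw [ha]; exact List.mem_singleton.mpr rfl, hw⟩)
        · exact Or.inr ⟨a, ha, hw⟩

private theorem left_Jump (hG : Good G x t0 t1 t2) : ∀ (l : List (Fin 9)) (a p : Fin 9)
    (S : V ⊕ Fin 5 → Prop) (v : V ⊕ Fin 5), l.IsChain (fun a b => gadj a b = true) →
    l.Nodup → l.getLast? = some a → l.head? = some p → (∀ e ∈ l.dropLast, ¬ S (gv x t0 t1 t2 e)) →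
    HP (phi G x t0 t1 t2) S (gv x t0 t1 t2 a) v →
    HP (phi G x t0 t1 t2) (fun w => (∃ e ∈ l.dropLast, gv x t0 t1 t2 e = w) ∨ S w)
      (gv x t0 t1 t2 p) v
  | [], a, p, S, v, _, _, ha, _, _, _ => by simp at ha
  | [d], a, p, S, v, _, _, ha, hp, _, h => by
    have h1 : d = a := by simpa using ha
    have h2 : d = p := by simpa using hp
    subst h1
    subst h2
    exact h.congr fun w => by simp
  | d :: d' :: l, a, p, S, v, hc, hn, ha, hp, hS, h => by
    have h0 : d = p := by simpa using hp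
    subst h0
    have hc2 : gadj d d' = true ∧ (d' :: l).IsChain (fun a b => gadj a b = true) := by
      cases hc with
      | cons_cons h1 h2 => exact ⟨h1, h2⟩
    have hn2 : (d' :: l).Nodup := (List.nodup_cons.mp hn).2
    have hd : d ∉ d' :: l := (List.nodup_cons.mp hn).1
    have hdl : (d :: d' :: l).dropLast = d :: (d' :: l).dropLast := rfl
    rw [hdl] at hS ⊢
    have h3 := left_Jump hG (d' :: l) a d' S v hc2.2 hn2 (by simpa using ha) rfl
      (fun e he => hS e (List.mem_cons_of_mem _ he)) h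
    have h1 : HP (phi G x t0 t1 t2) (fun w => ∃ a ∈ [d], gv x t0 t1 t2 a = w)
        (gv x t0 t1 t2 d) (gv x t0 t1 t2 d) :=
      HP.gad hG [d] d d (List.nodup_singleton d) (List.IsChain.singleton _) rfl rfl
    have h2 := h1.append h3 (fun w hw hw' => by
      obtain ⟨a, ha, rfl⟩ := hw
      rw [List.mem_singleton] at ha
      subst ha
      rcases hw' with ⟨e, he, hw'⟩ | hw'
      · have := gv_inj hG hw'
        subst this
        exact hd (List.dropLast_subset _ he)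
      · exact hS a List.mem_cons_self hw') (gv_adj hG d d' hc2.1)
    refine h2.congr fun w => ?_
    constructor
    · rintro (⟨a, ha, hw⟩ | (⟨a, ha, hw⟩ | hw))
      · rw [List.mem_singleton] at ha
        exact Or.inl ⟨a, by rw [ha]; exact List.mem_cons_self, hw⟩
      · exact Or.inl ⟨a, List.mem_cons_of_mem _ ha, hw⟩
      · exact Or.inr hw
    · rintro (⟨a, ha, hw⟩ | hw)
      · rcases List.mem_cons.mp ha with ha | ha
        · exact Or.inl ⟨a, by rw [ha]; exact List.mem_singleton.mpr rfl, hw⟩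
        · exact Or.inr (Or.inl ⟨a, ha, hw⟩)
      · exact Or.inr (Or.inr hw)

private theorem all_Jump {l : List (Fin 9)} (h : l.Nodup) (hl : l.length = 9) (e : Fin 9) :
    e ∈ l := by
  have h1 : l.toFinset.card = 9 := by rw [List.toFinset_card_of_nodup h, hl]
  have h2 : l.toFinset = Finset.univ := by
    apply Finset.eq_univ_of_card
    rw [h1]
    rfl
  have h3 : e ∈ l.toFinset := by rw [h2]; exact Finset.mem_univ e
  exact List.mem_toFinset.mp h3

/-- values of `gv` in `G`, and vertices which are not in the gadget -/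
private theorem gv_inl_Jump (e : Fin 9) (v : V) (h : gv x t0 t1 t2 e = Sum.inl v) :
    (e = 0 ∧ v = x) ∨ (e = 6 ∧ v = t0) ∨ (e = 7 ∧ v = t1) ∨ (e = 8 ∧ v = t2) := by
  fin_cases e <;> simp [gv] at h <;> simp [h]

private theorem gv_inr_Jump (i : Fin 5) : ∃ e : Fin 9, gv x t0 t1 t2 e = Sum.inr i := by
  fin_cases i
  · exact ⟨1, rfl⟩
  · exact ⟨2, rfl⟩
  · exact ⟨3, rfl⟩
  · exact ⟨4, rfl⟩
  · exact ⟨5, rfl⟩

/-- the path in `G` between two different `t`s -/
private theorem mid_Jump (hG : Good G x t0 t1 t2) (a b : Fin 9) (ha : a = 6 ∨ a = 7 ∨ a = 8)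
    (hb : b = 6 ∨ b = 7 ∨ b = 8) (hab : a ≠ b) :
    ∃ (M : V → Prop) (ua ub : V), HP G M ua ub ∧ gv x t0 t1 t2 a = Sum.inl ua ∧
      gv x t0 t1 t2 b = Sum.inl ub ∧ (∀ v, M v → v ≠ x) ∧
      (∀ (e : Fin 9) (v : V), gv x t0 t1 t2 e = Sum.inl v → (M v ↔ e = a ∨ e = b)) ∧
      ∀ v, v ≠ x → v ≠ t0 → v ≠ t1 → v ≠ t2 → M v := by
  have hx0 : x ≠ t0 := by
    have := (hG.nbr t0).mpr (Or.inl rfl)
    exact this.ne
  have hx1 : x ≠ t1 := by
    have := (hG.nbr t1).mpr (Or.inr (Or.inl rfl))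
    exact this.ne
  have hx2 : x ≠ t2 := by
    have := (hG.nbr t2).mpr (Or.inr (Or.inr rfl))
    exact this.ne
  have h01 := hG.t01
  have h02 := hG.t02
  have h12 := hG.t12
  rcases ha with rfl | rfl | rfl <;> rcases hb with rfl | rfl | rfl
  · exact absurd rfl hab
  · refine ⟨_, t0, t1, hG.r2, rfl, rfl, fun v h => h.1, fun e v hv => ?_,
      fun v h h0 h1 h2 => ⟨h, h2⟩⟩
    rcases gv_inl_Jump e v hv with ⟨rfl, rfl⟩ | ⟨rfl, rfl⟩ | ⟨rfl, rfl⟩ | ⟨rfl, rfl⟩ <;>
      simp_all [eq_comm]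
  · refine ⟨_, t0, t2, hG.r1, rfl, rfl, fun v h => h.1, fun e v hv => ?_,
      fun v h h0 h1 h2 => ⟨h, h1⟩⟩
    rcases gv_inl_Jump e v hv with ⟨rfl, rfl⟩ | ⟨rfl, rfl⟩ | ⟨rfl, rfl⟩ | ⟨rfl, rfl⟩ <;>
      simp_all [eq_comm]
  · refine ⟨_, t1, t0, hG.r2.symm, rfl, rfl, fun v h => h.1, fun e v hv => ?_,
      fun v h h0 h1 h2 => ⟨h, h2⟩⟩
    rcases gv_inl_Jump e v hv with ⟨rfl, rfl⟩ | ⟨rfl, rfl⟩ | ⟨rfl, rfl⟩ | ⟨rfl, rfl⟩ <;>
      simp_all [eq_comm]
  · exact absurd rfl hab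
  · refine ⟨_, t1, t2, hG.r0, rfl, rfl, fun v h => h.1, fun e v hv => ?_,
      fun v h h0 h1 h2 => ⟨h, h0⟩⟩
    rcases gv_inl_Jump e v hv with ⟨rfl, rfl⟩ | ⟨rfl, rfl⟩ | ⟨rfl, rfl⟩ | ⟨rfl, rfl⟩ <;>
      simp_all [eq_comm]
  · refine ⟨_, t2, t0, hG.r1.symm, rfl, rfl, fun v h => h.1, fun e v hv => ?_,
      fun v h h0 h1 h2 => ⟨h, h1⟩⟩
    rcases gv_inl_Jump e v hv with ⟨rfl, rfl⟩ | ⟨rfl, rfl⟩ | ⟨rfl, rfl⟩ | ⟨rfl, rfl⟩ <;>
      simp_all [eq_comm]
  · refine ⟨_, t2, t1, hG.r0.symm, rfl, rfl, fun v h => h.1, fun e v hv => ?_,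
      fun v h h0 h1 h2 => ⟨h, h0⟩⟩
    rcases gv_inl_Jump e v hv with ⟨rfl, rfl⟩ | ⟨rfl, rfl⟩ | ⟨rfl, rfl⟩ | ⟨rfl, rfl⟩ <;>
      simp_all [eq_comm]
  · exact absurd rfl hab

/-- the two sets of vertices agree -/
private theorem set_Jump (M : V → Prop) (A B ex : List (Fin 9)) (a b : Fin 9)
    (hM : ∀ (e : Fin 9) (v : V), gv x t0 t1 t2 e = Sum.inl v → (M v ↔ e = a ∨ e = b))
    (hM' : ∀ v, v ≠ x → v ≠ t0 → v ≠ t1 → v ≠ t2 → M v)
    (hinj : Function.Injective (gv x t0 t1 t2))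
    (hina : ∃ ua, gv x t0 t1 t2 a = Sum.inl ua) (hinb : ∃ ub, gv x t0 t1 t2 b = Sum.inl ub)
    (hall : ∀ e : Fin 9, e ∈ ex ↔ ¬ (e ∈ A ∨ (e = a ∨ e = b) ∨ e ∈ B)) (w : V ⊕ Fin 5) :
    (((∃ e ∈ A, gv x t0 t1 t2 e = w) ∨ ∃ v, M v ∧ Sum.inl v = w) ∨
      ∃ e ∈ B, gv x t0 t1 t2 e = w) ↔ ∀ e ∈ ex, w ≠ gv x t0 t1 t2 e := by
  constructor
  · rintro ((⟨e', he', rfl⟩ | ⟨v, hv, rfl⟩) | ⟨e', he', rfl⟩) e he hw
    · have := hinj hw
      subst this
      exact (hall e').mp he (Or.inl he')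
    · exact (hall e).mp he (Or.inr (Or.inl ((hM e v hw.symm).mp hv)))
    · have := hinj hw
      subst this
      exact (hall e').mp he (Or.inr (Or.inr he'))
  · intro h
    have key : ∀ e : Fin 9, gv x t0 t1 t2 e = w →
        (((∃ e ∈ A, gv x t0 t1 t2 e = w) ∨ ∃ v, M v ∧ Sum.inl v = w) ∨
          ∃ e ∈ B, gv x t0 t1 t2 e = w) := by
      intro e he
      by_cases hex : e ∈ ex
      · exact absurd he.symm (h e hex)
      · rw [hall e, not_not] at hex
        rcases hex with h1 | h1 | h1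
        · exact Or.inl (Or.inl ⟨e, h1, he⟩)
        · refine Or.inl (Or.inr ?_)
          rcases h1 with rfl | rfl
          · obtain ⟨ua, hua⟩ := hina
            exact ⟨ua, (hM e ua hua).mpr (Or.inl rfl), by rw [← hua, he]⟩
          · obtain ⟨ub, hub⟩ := hinb
            exact ⟨ub, (hM e ub hub).mpr (Or.inr rfl), by rw [← hub, he]⟩
        · exact Or.inr ⟨e, h1, he⟩
    rcases w with v | i
    · by_cases hx : v = x
      · exact key 0 (by rw [hx]; rfl)
      by_cases h0 : v = t0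
      · exact key 6 (by rw [h0]; rfl)
      by_cases h1 : v = t1
      · exact key 7 (by rw [h1]; rfl)
      by_cases h2 : v = t2
      · exact key 8 (by rw [h2]; rfl)
      exact Or.inl (Or.inr ⟨v, hM' v hx h0 h1 h2, rfl⟩)
    · obtain ⟨e, he⟩ := gv_inr_Jump (x := x) (t0 := t0) (t1 := t1) (t2 := t2) i
      exact key e he

/-- Let `a` be the last element of `l1` and `b` the first of `l2` (both in `{6, 7, 8}`, distinct),
`c` the third element of `{6, 7, 8}`. By `r0`, `r1` or `r2` (and `HP.symm`) there is a path of `G`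
from `gv a` to `gv b` through all vertices except `x` and the one of `c`. The path of `phi` is
`l1` without `a`, this path, `l2` without `b` (`HP.gad`, `HP.inl`, `HP.append`; if `l1 = [a]` or
`l2 = [b]` the corresponding part is missing). -/
theorem jump (hG : Good G x t0 t1 t2) (l1 l2 ex : List (Fin 9)) (p q : Fin 9)
    (h : okJ l1 l2 ex p q = true) :
    HP (phi G x t0 t1 t2) (fun w => ∀ e ∈ ex, w ≠ gv x t0 t1 t2 e) (gv x t0 t1 t2 p)
      (gv x t0 t1 t2 q) := by
  simp only [okJ, Bool.and_eq_true, Bool.or_eq_true, decide_eq_true_eq] at h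
  obtain ⟨⟨⟨⟨⟨⟨⟨hc1, hc2⟩, hn⟩, hlen⟩, hp⟩, hq⟩, ha'⟩, hb'⟩ := h
  obtain ⟨a, ha, hla⟩ : ∃ a : Fin 9, (a = 6 ∨ a = 7 ∨ a = 8) ∧ l1.getLast? = some a := by
    rcases ha' with (h1 | h1) | h1
    · exact ⟨6, Or.inl rfl, h1⟩
    · exact ⟨7, Or.inr (Or.inl rfl), h1⟩
    · exact ⟨8, Or.inr (Or.inr rfl), h1⟩
  obtain ⟨b, hb, hlb⟩ : ∃ b : Fin 9, (b = 6 ∨ b = 7 ∨ b = 8) ∧ l2.head? = some b := by
    rcases hb' with (h1 | h1) | h1
    · exact ⟨6, Or.inl rfl, h1⟩
    · exact ⟨7, Or.inr (Or.inl rfl), h1⟩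
    · exact ⟨8, Or.inr (Or.inr rfl), h1⟩
  obtain ⟨l2', rfl⟩ : ∃ l2', l2 = b :: l2' := by
    cases l2 with
    | nil => simp at hlb
    | cons d l =>
      have : d = b := by simpa using hlb
      exact ⟨l, by rw [this]⟩
  obtain ⟨hn1, hn2, hn3⟩ := List.nodup_append.mp hn
  obtain ⟨hn4, hn5, hn6⟩ := List.nodup_append.mp hn2
  have hl1 : l1 = l1.dropLast ++ [a] := by
    have hne : l1 ≠ [] := by
      rintro rfl
      simp at hla
    have h1 := List.dropLast_append_getLast hne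
    have h2 : l1.getLast hne = a := by
      rw [List.getLast?_eq_some_getLast hne] at hla
      exact Option.some.inj hla
    rw [h2] at h1
    exact h1.symm
  have ham : a ∈ l1 := by
    rw [hl1]
    exact List.mem_append_right _ (List.mem_singleton.mpr rfl)
  have hbm : b ∈ b :: l2' := List.mem_cons_self
  have hab : a ≠ b := hn3 a ham b (List.mem_append_left _ hbm)
  have hnd : a ∉ l1.dropLast := by
    have h1 := hn1
    rw [hl1] at h1
    intro h2
    exact (List.nodup_append.mp h1).2.2 a h2 a (List.mem_singleton.mpr rfl) rfl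
  have hnb : b ∉ l2' := (List.nodup_cons.mp hn4).1
  obtain ⟨M, ua, ub, hP, hga, hgb, hMx, hM, hM'⟩ := mid_Jump hG a b ha hb hab
  have h1 : HP (phi G x t0 t1 t2) (fun w => ∃ a, M a ∧ Sum.inl a = w) (gv x t0 t1 t2 a)
      (gv x t0 t1 t2 b) := by
    rw [hga, hgb]
    exact HP.inl hG hP hMx
  have h2 := left_Jump hG l1 a p _ _ (chain_Jump l1 hc1) hn1 hla hp (fun e he hw => by
    obtain ⟨v, hv, hw⟩ := hw
    rcases (hM e v hw.symm).mp hv with h3 | h3
    · subst h3
      exact hnd he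
    · subst h3
      exact hn3 e (List.dropLast_subset _ he) e (List.mem_append_left _ hbm) rfl) h1
  have h3 := right_Jump hG l2' b q _ _ (chain_Jump _ hc2) hn4 hq (fun e he hw => by
    rcases hw with ⟨e', he', hw⟩ | ⟨v, hv, hw⟩
    · have := gv_inj hG hw
      subst this
      exact hn3 e' (List.dropLast_subset _ he') e'
        (List.mem_append_left _ (List.mem_cons_of_mem _ he)) rfl
    · rcases (hM e v hw.symm).mp hv with h3 | h3
      · subst h3
        exact hn3 e ham e (List.mem_append_left _ (List.mem_cons_of_mem _ he)) rfl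
      · subst h3
        exact hnb he) h2
  refine h3.congr (set_Jump M l1.dropLast l2' ex a b hM hM' (gv_inj hG) ⟨ua, hga⟩ ⟨ub, hgb⟩
    fun e => ?_)
  have hall := all_Jump hn hlen e
  have he1 : e ∈ l1 ↔ e ∈ l1.dropLast ∨ e = a := by
    conv_lhs => rw [hl1]
    rw [List.mem_append, List.mem_singleton]
  constructor
  · intro he hcon
    rcases hcon with h4 | (h4 | h4) | h4
    · exact hn3 e (he1.mpr (Or.inl h4)) e (List.mem_append_right _ he) rfl
    · exact hn3 e (he1.mpr (Or.inr h4)) e (List.mem_append_right _ he) rfl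
    · subst h4
      exact hn6 e hbm e he rfl
    · exact hn6 e (List.mem_cons_of_mem _ h4) e he rfl
  · intro hcon
    rcases List.mem_append.mp hall with h4 | h4
    · rcases he1.mp h4 with h5 | h5
      · exact absurd (Or.inl h5) hcon
      · exact absurd (Or.inr (Or.inl (Or.inl h5))) hcon
    · rcases List.mem_append.mp h4 with h5 | h5
      · rcases List.mem_cons.mp h5 with h6 | h6
        · exact absurd (Or.inr (Or.inl (Or.inr h6))) hcon
        · exact absurd (Or.inr (Or.inr h6)) hcon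
      · exact h5

/-- `l` leads from `a` to `q`; `l`, `ex` together contain every vertex of the gadget once. -/
def okT (l ex : List (Fin 9)) (a q : Fin 9) : Bool :=
  gch l && decide ((l ++ ex).Nodup) && decide ((l ++ ex).length = 9) &&
  decide (l.head? = some a) && decide (l.getLast? = some q) && decide (2 ≤ l.length)

private theorem tail_Jump (hG : Good G x t0 t1 t2) (M : V → Prop) (t : V) (a : Fin 9)
    (hga : gv x t0 t1 t2 a = Sum.inl t) (h : HP G M u t) (hMx : ∀ v, M v → v ≠ x)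
    (hM : ∀ (e : Fin 9) (v : V), gv x t0 t1 t2 e = Sum.inl v → (M v ↔ e = a ∨ e = a))
    (hM' : ∀ v, v ≠ x → v ≠ t0 → v ≠ t1 → v ≠ t2 → M v) (l ex : List (Fin 9)) (q : Fin 9)
    (hl : okT l ex a q = true) :
    HP (phi G x t0 t1 t2) (fun w => ∀ e ∈ ex, w ≠ gv x t0 t1 t2 e) (Sum.inl u)
      (gv x t0 t1 t2 q) := by
  simp only [okT, Bool.and_eq_true, decide_eq_true_eq] at hl
  obtain ⟨⟨⟨⟨⟨hc, hn⟩, hlen⟩, ha⟩, hq⟩, -⟩ := hl
  obtain ⟨l', rfl⟩ : ∃ l', l = a :: l' := by
    cases l with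
    | nil => simp at ha
    | cons d l =>
      have : d = a := by simpa using ha
      exact ⟨l, by rw [this]⟩
  obtain ⟨hn1, hn2, hn3⟩ := List.nodup_append.mp hn
  have hna : a ∉ l' := (List.nodup_cons.mp hn1).1
  have h1 : HP (phi G x t0 t1 t2) (fun w => ∃ a, M a ∧ Sum.inl a = w) (Sum.inl u)
      (gv x t0 t1 t2 a) := by
    rw [hga]
    exact HP.inl hG h hMx
  have h3 := right_Jump hG l' a q _ _ (chain_Jump _ hc) hn1 hq (fun e he hw => by
    obtain ⟨v, hv, hw⟩ := hw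
    rcases (hM e v hw.symm).mp hv with h3 | h3 <;>
    · subst h3
      exact hna he) h1
  refine h3.congr fun w => ?_
  have h4 := set_Jump M [] l' ex a a hM hM' (gv_inj hG) ⟨t, hga⟩ ⟨t, hga⟩ (fun e => by
    have hall := all_Jump hn hlen e
    constructor
    · intro he hcon
      rcases hcon with h4 | (h4 | h4) | h4
      · simp at h4
      · subst h4
        exact hn3 e List.mem_cons_self e he rfl
      · subst h4
        exact hn3 e List.mem_cons_self e he rfl
      · exact hn3 e (List.mem_cons_of_mem _ h4) e he rfl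
    · intro hcon
      rcases List.mem_append.mp hall with h5 | h5
      · rcases List.mem_cons.mp h5 with h6 | h6
        · exact absurd (Or.inr (Or.inl (Or.inr h6))) hcon
        · exact absurd (Or.inr (Or.inr h6)) hcon
      · exact h5) w
  rw [← h4]
  simp

/-- The path `h` of `G`, then `l` without its first element. -/
theorem tail1 (hG : Good G x t0 t1 t2) (hu : u ≠ x ∧ u ≠ t0 ∧ u ≠ t1 ∧ u ≠ t2)
    (h : HP G (fun w => w ≠ x ∧ w ≠ t0 ∧ w ≠ t2) u t1) (l ex : List (Fin 9)) (q : Fin 9)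
    (hl : okT l ex 7 q = true) :
    HP (phi G x t0 t1 t2) (fun w => ∀ e ∈ ex, w ≠ gv x t0 t1 t2 e) (Sum.inl u)
      (gv x t0 t1 t2 q) := by
  have hx0 : x ≠ t0 := ((hG.nbr t0).mpr (Or.inl rfl)).ne
  have hx1 : x ≠ t1 := ((hG.nbr t1).mpr (Or.inr (Or.inl rfl))).ne
  have hx2 : x ≠ t2 := ((hG.nbr t2).mpr (Or.inr (Or.inr rfl))).ne
  have h01 := hG.t01
  have h02 := hG.t02
  have h12 := hG.t12
  refine tail_Jump hG _ t1 7 rfl h (fun v hv => hv.1) (fun e v hv => ?_)
    (fun v h h0 h1 h2 => ⟨h, h0, h2⟩) l ex q hl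
  rcases gv_inl_Jump e v hv with ⟨rfl, rfl⟩ | ⟨rfl, rfl⟩ | ⟨rfl, rfl⟩ | ⟨rfl, rfl⟩ <;>
    simp [hx0.symm, hx1.symm, hx2.symm, h01, h02, h12, h01.symm, h02.symm, h12.symm]

/-- The path `h` of `G`, then `l` without its first element. -/
theorem tail2 (hG : Good G x t0 t1 t2) (hu : u ≠ x ∧ u ≠ t0 ∧ u ≠ t1 ∧ u ≠ t2)
    (h : HP G (fun w => w ≠ x ∧ w ≠ t0 ∧ w ≠ t1) u t2) (l ex : List (Fin 9)) (q : Fin 9)
    (hl : okT l ex 8 q = true) :
    HP (phi G x t0 t1 t2) (fun w => ∀ e ∈ ex, w ≠ gv x t0 t1 t2 e) (Sum.inl u)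
      (gv x t0 t1 t2 q) := by
  have hx0 : x ≠ t0 := ((hG.nbr t0).mpr (Or.inl rfl)).ne
  have hx1 : x ≠ t1 := ((hG.nbr t1).mpr (Or.inr (Or.inl rfl))).ne
  have hx2 : x ≠ t2 := ((hG.nbr t2).mpr (Or.inr (Or.inr rfl))).ne
  have h01 := hG.t01
  have h02 := hG.t02
  have h12 := hG.t12
  refine tail_Jump hG _ t2 8 rfl h (fun v hv => hv.1) (fun e v hv => ?_)
    (fun v h h0 h1 h2 => ⟨h, h0, h1⟩) l ex q hl
  rcases gv_inl_Jump e v hv with ⟨rfl, rfl⟩ | ⟨rfl, rfl⟩ | ⟨rfl, rfl⟩ | ⟨rfl, rfl⟩ <;>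
    simp [hx0.symm, hx1.symm, hx2.symm, h01, h02, h12, h01.symm, h02.symm, h12.symm]

end Pool.Mnh
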