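import Pool.Agent.Mnh.Step
import Pool.Agent.Mnh.Ham
import Pool.Agent.Mnh.B18
import Pool.Agent.Mnh.B19
import Pool.Agent.Mnh.B20
import Pool.Agent.Mnh.B21
import Pool.Agent.Mnh.B22

/-! Graphs of all orders. -/

set_option autoImplicit false

namespace Pool.Mnh

/-- There is a graph with `n` vertices satisfying the inductive hypothesis. -/
def Ex (n : ℕ) : Prop :=
  ∃ (V : Type) (_ : Fintype V) (G : SimpleGraph V) (x t0 t1 t2 : V),
    Fintype.card V = n ∧ Good G x t0 t1 t2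

theorem Ex.of_fin {n : ℕ} {G : SimpleGraph (Fin n)}
    (h : ∃ x t0 t1 t2 : Fin n, Good G x t0 t1 t2) : Ex n := by
  obtain ⟨x, t0, t1, t2, h⟩ := h
  exact ⟨Fin n, inferInstance, G, x, t0, t1, t2, Fintype.card_fin n, h⟩

theorem Ex.succ {n : ℕ} (h : Ex n) : Ex (n + 5) := by
  obtain ⟨V, _, G, x, t0, t1, t2, hn, hG⟩ := h
  exact ⟨V ⊕ Fin 5, inferInstance, phi G x t0 t1 t2, Sum.inl x, Sum.inl t0, Sum.inr 0, Sum.inr 4,
    by rw [Fintype.card_sum, Fintype.card_fin, hn], step hG⟩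

theorem ex_all (n : ℕ) (hn : 18 ≤ n) : Ex n := by
  induction n using Nat.strong_induction_on with
  | _ n ih =>
    by_cases h : 23 ≤ n
    · obtain ⟨m, rfl⟩ := Nat.exists_eq_add_of_le' (show 5 ≤ n by omega)
      exact (ih m (by omega) (by omega)).succ
    · have h1 : n = 18 ∨ n = 19 ∨ n = 20 ∨ n = 21 ∨ n = 22 := by omega
      rcases h1 with rfl | rfl | rfl | rfl | rfl
      · exact Ex.of_fin B18.good
      · exact Ex.of_fin B19.good
      · exact Ex.of_fin B20.good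
      · exact Ex.of_fin B21.good
      · exact Ex.of_fin B22.good

theorem main (n : ℕ) (hn : 18 ≤ n) :
    ∃ G : SimpleGraph (Fin n), ¬ G.IsHamiltonian ∧
      (∀ u v : Fin n, u ≠ v → ¬ G.Adj u v → (G ⊔ SimpleGraph.edge u v).IsHamiltonian) ∧
      G.girth = 4 := by
  obtain ⟨V, _, G, x, t0, t1, t2, hn, hG⟩ := ex_all n hn
  exact of_good hG hn

end Pool.Mnh
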