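import Pool.Agent.Mnh.Defs

/-! A connected 2-factor of `phi` on the gadget. -/

set_option autoImplicit false

namespace Pool.Mnh

variable {V : Type} {G : SimpleGraph V} {x t0 t1 t2 : V}

/-- The vertex `h p`. -/
private def hNFacA (p : Fin 6) : Fin 9 := ⟨p.val, by omega⟩

/-- The vertex `t (p mod 3)`. -/
private def tNFacA (p : Fin 6) : Fin 9 := ⟨p.val % 3 + 6, by omega⟩

/-- A closed set of vertices of the gadget. -/
private def ClNFacA (E : Fin 6 → Bool) (X : Fin 9 → Bool) : Prop :=
  (∃ i, X i = true) ∧ (∀ p, E p = true → X (hNFacA p) = X (hNFacA (p + 1))) ∧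
    (∀ p, (!(E (p + 5) && E p)) = true → X (hNFacA p) = X (tNFacA p)) ∧
    ∀ p, X (tNFacA p) = true → (!(E (p + 5) && E p)) = true

private instance decNFacA (E : Fin 6 → Bool) (X : Fin 9 → Bool) : Decidable (ClNFacA E X) := by
  unfold ClNFacA
  infer_instance

/-- The hexagon and the `t`'s which are adjacent to two vertices of the hexagon. -/
private def XNFacA (E : Fin 6 → Bool) (i : Fin 9) : Bool :=
  match i with
  | 6 => !(E 5 && E 0) && !(E 2 && E 3)
  | 7 => !(E 0 && E 1) && !(E 3 && E 4)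
  | 8 => !(E 1 && E 2) && !(E 4 && E 5)
  | _ => true

/-- The vertices `h (p + 3), h (p + 4), h (p + 5), h p, t p`. -/
private def YNFacA (p : Fin 6) (i : Fin 9) : Bool :=
  i == hNFacA (p + 3) || i == hNFacA (p + 4) || i == hNFacA (p + 5) || i == hNFacA p ||
    i == tNFacA p

private theorem comb0_NFacA : ∀ a b c d e f : Bool,
    (∀ p, (![a, b, c, d, e, f] (p + 5) || ![a, b, c, d, e, f] p) = true) →
    (∃ p q : Fin 6, p.val % 3 ≠ q.val % 3 ∧
      ∀ r, (!(![a, b, c, d, e, f] (r + 5) && ![a, b, c, d, e, f] r)) = true ↔ r = p ∨ r = q) ∨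
    ClNFacA ![a, b, c, d, e, f] (XNFacA ![a, b, c, d, e, f]) ∨
    ∃ p, ClNFacA ![a, b, c, d, e, f] (YNFacA p) := by
  decide +kernel

private theorem comb_NFacA (E : Fin 6 → Bool) (hE : ∀ p, (E (p + 5) || E p) = true) :
    (∃ p q : Fin 6, p.val % 3 ≠ q.val % 3 ∧
      ∀ r, (!(E (r + 5) && E r)) = true ↔ r = p ∨ r = q) ∨ ∃ X, ClNFacA E X := by
  have h : E = ![E 0, E 1, E 2, E 3, E 4, E 5] := by
    ext p
    fin_cases p <;> rfl
  have h1 := comb0_NFacA (E 0) (E 1) (E 2) (E 3) (E 4) (E 5)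
  rw [← h] at h1
  rcases h1 hE with h2 | h2 | ⟨p, h2⟩
  · exact Or.inl h2
  · exact Or.inr ⟨_, h2⟩
  · exact Or.inr ⟨_, h2⟩

private theorem six_NFacA : ∀ p : Fin 6, p + 5 + 1 = p := by decide

private theorem tt_NFacA : ∀ p : Fin 6, tNFacA (p + 3) = tNFacA p := by decide

private theorem cases_NFacA : ∀ i : Fin 9, ∃ p : Fin 6, i = hNFacA p ∨ i = tNFacA p := by decide

/-- The neighbours of `h p` in `phi`. -/
private theorem nb_NFacA (hG : Good G x t0 t1 t2) (p : Fin 6) (w : V ⊕ Fin 5) :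
    (phi G x t0 t1 t2).Adj (gv x t0 t1 t2 (hNFacA p)) w →
      w = gv x t0 t1 t2 (hNFacA (p + 1)) ∨ w = gv x t0 t1 t2 (hNFacA (p + 5)) ∨
      w = gv x t0 t1 t2 (tNFacA p) := by
  have h0 : x ≠ t0 := ((hG.nbr t0).2 (Or.inl rfl)).ne
  have h1 : x ≠ t1 := ((hG.nbr t1).2 (Or.inr (Or.inl rfl))).ne
  have h2 : x ≠ t2 := ((hG.nbr t2).2 (Or.inr (Or.inr rfl))).ne
  fin_cases p
  · intro h
    rcases w with u | i
    · have h3 : G.Adj x u ∧ ¬ (x = x ∧ u ≠ t0) ∧ ¬ (u = x ∧ x ≠ t0) := h
      have h4 : u = t0 := by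
        by_contra h5
        exact h3.2.1 ⟨rfl, h5⟩
      right; right
      rw [h4]
      rfl
    · have h3 : (x = x ∧ (i = 0 ∨ i = 4)) ∨ (x = t0 ∧ i = 2) ∨
          (x = t1 ∧ (i = 0 ∨ i = 3)) ∨ (x = t2 ∧ (i = 1 ∨ i = 4)) := h
      rcases h3 with ⟨-, rfl | rfl⟩ | ⟨h4, -⟩ | ⟨h4, -⟩ | ⟨h4, -⟩
      · left; rfl
      · right; left; rfl
      · exact absurd h4 h0
      · exact absurd h4 h1
      · exact absurd h4 h2
  all_goals
    intro h
    rcases w with u | i
    · rcases h with ⟨rfl, h4⟩ | ⟨rfl, h4⟩ | ⟨rfl, h4⟩ | ⟨rfl, h4⟩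
      all_goals first
        | exact absurd h4 (by decide)
        | (left; rfl)
        | (right; left; rfl)
        | (right; right; rfl)
    · fin_cases i
      all_goals first
        | (left; rfl)
        | (right; left; rfl)
        | exact absurd h (by simp [phi, phiAdj, gv, hNFacA])

/-- The vertices of the gadget are distinct. -/
private theorem inj_NFacA (hG : Good G x t0 t1 t2) : Function.Injective (gv x t0 t1 t2) := by
  have h0 : x ≠ t0 := ((hG.nbr t0).2 (Or.inl rfl)).ne
  have h1 : x ≠ t1 := ((hG.nbr t1).2 (Or.inr (Or.inl rfl))).ne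
  have h2 : x ≠ t2 := ((hG.nbr t2).2 (Or.inr (Or.inr rfl))).ne
  have h3 := hG.t01
  have h4 := hG.t02
  have h5 := hG.t12
  intro i j h
  fin_cases i <;> fin_cases j <;>
    first
      | rfl
      | (simp [gv, h0, h1, h2, h3, h4, h5, h0.symm, h1.symm, h2.symm, h3.symm, h4.symm,
          h5.symm] at h)

/-- Let `C'` be a connected 2-factor of `phi`, `e p` = adjacency in `C'` of `h_p` and `h_(p+1)`
(indices mod 6, `h_p = gv p`), `f p` = adjacency of `h_p` and `t_(p mod 3) = gv (p % 3 + 6)`. The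
neighbours of `h_p` in `phi` are `h_(p-1), h_(p+1), t_(p mod 3)` and exactly two of them are
neighbours in `C'`. Then exactly one `e p` is false and exactly two `f p` hold, `f (p)` and
`f (p + 1)` for that `p`: otherwise a set `X` of vertices of the gadget contradicts `conn`
(`far` gives a vertex outside): no `e p` is false: the hexagon; `e p, e (p + 2)` false:
`h_(p+3), h_(p+4), h_(p+5), h_p, t_p`; `e p, e (p + 3)` false: the hexagon and the two `t`'s
different from `t_(p+2)`... (the ones adjacent in `C'` to two vertices of the hexagon); three `e`'s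
false: the hexagon and all `t`'s. -/
theorem fac_gadget (hG : Good G x t0 t1 t2) {C' : SimpleGraph (V ⊕ Fin 5)}
    (hC : Fac (phi G x t0 t1 t2) C') : ∃ p q : Fin 6, p.val % 3 ≠ q.val % 3 ∧
      ∀ r : Fin 6, C'.Adj (gv x t0 t1 t2 ⟨r.val, by omega⟩)
        (gv x t0 t1 t2 ⟨r.val % 3 + 6, by omega⟩) ↔ r = p ∨ r = q := by
  classical
  obtain ⟨g, hg⟩ : ∃ g, g = gv x t0 t1 t2 := ⟨_, rfl⟩
  have hinj : Function.Injective g := by
    rw [hg]
    exact inj_NFacA hG
  have hnb : ∀ p w, C'.Adj (g (hNFacA p)) w → w = g (hNFacA (p + 1)) ∨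
      w = g (hNFacA (p + 5)) ∨ w = g (tNFacA p) := by
    intro p w h
    have h1 := hC.le _ _ h
    rw [hg] at h1 ⊢
    exact nb_NFacA hG p w h1
  obtain ⟨E, hE⟩ : ∃ E : Fin 6 → Bool, ∀ p, E p = true ↔
      C'.Adj (g (hNFacA p)) (g (hNFacA (p + 1))) :=
    ⟨fun p => decide (C'.Adj (g (hNFacA p)) (g (hNFacA (p + 1)))), fun p => decide_eq_true_iff⟩
  have hE5 : ∀ p, E (p + 5) = true ↔ C'.Adj (g (hNFacA p)) (g (hNFacA (p + 5))) := by
    intro p
    rw [hE (p + 5), six_NFacA p, C'.adj_comm]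
  obtain ⟨F, hF⟩ : ∃ F : Fin 6 → Bool, ∀ p, F p = true ↔
      C'.Adj (g (hNFacA p)) (g (tNFacA p)) :=
    ⟨fun p => decide (C'.Adj (g (hNFacA p)) (g (tNFacA p))), fun p => decide_eq_true_iff⟩
  have hne1 : ∀ p : Fin 6, hNFacA (p + 1) ≠ hNFacA (p + 5) := by decide
  have hne2 : ∀ p : Fin 6, hNFacA (p + 1) ≠ tNFacA p := by decide
  have hne3 : ∀ p : Fin 6, hNFacA (p + 5) ≠ tNFacA p := by decide
  have hdeg : ∀ p, (E (p + 5) || E p) = true ∧ F p = !(E (p + 5) && E p) := by
    intro p
    obtain ⟨a, b, hab, hN⟩ := hC.deg (g (hNFacA p))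
    have ha := hnb p a ((hN a).2 (Or.inl rfl))
    have hb := hnb p b ((hN b).2 (Or.inr rfl))
    have n1 : g (hNFacA (p + 1)) ≠ g (hNFacA (p + 5)) := fun h => hne1 p (hinj h)
    have n2 : g (hNFacA (p + 1)) ≠ g (tNFacA p) := fun h => hne2 p (hinj h)
    have n3 : g (hNFacA (p + 5)) ≠ g (tNFacA p) := fun h => hne3 p (hinj h)
    have e1 := (hE p).trans (hN _)
    have e2 := (hE5 p).trans (hN _)
    have e3 := (hF p).trans (hN _)
    rcases ha with rfl | rfl | rfl <;> rcases hb with rfl | rfl | rfl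
    · exact absurd rfl hab
    · have k1 : E p = true := e1.2 (Or.inl rfl)
      have k2 : E (p + 5) = true := e2.2 (Or.inr rfl)
      have k3 : F p = false := by
        rw [← Bool.not_eq_true, e3]
        rintro (h | h)
        · exact n2 h.symm
        · exact n3 h.symm
      rw [k1, k2, k3]
      exact ⟨rfl, rfl⟩
    · have k1 : E p = true := e1.2 (Or.inl rfl)
      have k3 : F p = true := e3.2 (Or.inr rfl)
      have k2 : E (p + 5) = false := by
        rw [← Bool.not_eq_true, e2]
        rintro (h | h)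
        · exact n1 h.symm
        · exact n3 h
      rw [k1, k2, k3]
      exact ⟨rfl, rfl⟩
    · have k1 : E p = true := e1.2 (Or.inr rfl)
      have k2 : E (p + 5) = true := e2.2 (Or.inl rfl)
      have k3 : F p = false := by
        rw [← Bool.not_eq_true, e3]
        rintro (h | h)
        · exact n3 h.symm
        · exact n2 h.symm
      rw [k1, k2, k3]
      exact ⟨rfl, rfl⟩
    · exact absurd rfl hab
    · have k2 : E (p + 5) = true := e2.2 (Or.inl rfl)
      have k3 : F p = true := e3.2 (Or.inr rfl)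
      have k1 : E p = false := by
        rw [← Bool.not_eq_true, e1]
        rintro (h | h)
        · exact n1 h
        · exact n2 h
      rw [k1, k2, k3]
      exact ⟨rfl, rfl⟩
    · have k1 : E p = true := e1.2 (Or.inr rfl)
      have k3 : F p = true := e3.2 (Or.inl rfl)
      have k2 : E (p + 5) = false := by
        rw [← Bool.not_eq_true, e2]
        rintro (h | h)
        · exact n3 h
        · exact n1 h.symm
      rw [k1, k2, k3]
      exact ⟨rfl, rfl⟩
    · have k2 : E (p + 5) = true := e2.2 (Or.inr rfl)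
      have k3 : F p = true := e3.2 (Or.inl rfl)
      have k1 : E p = false := by
        rw [← Bool.not_eq_true, e1]
        rintro (h | h)
        · exact n2 h
        · exact n1 h
      rw [k1, k2, k3]
      exact ⟨rfl, rfl⟩
    · exact absurd rfl hab
  rcases comb_NFacA E (fun p => (hdeg p).1) with ⟨p, q, hpq, h⟩ | ⟨X, hX1, hX2, hX3, hX4⟩
  · refine ⟨p, q, hpq, fun r => ?_⟩
    rw [← h r, ← (hdeg r).2, hF r, hg]
    exact Iff.rfl
  · exfalso
    have hX3' : ∀ p, F p = true → X (hNFacA p) = X (tNFacA p) := by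
      intro p hp
      rw [(hdeg p).2] at hp
      exact hX3 p hp
    have hX4' : ∀ p, X (tNFacA p) = true → F p = true := by
      intro p hp
      rw [(hdeg p).2]
      exact hX4 p hp
    obtain ⟨i0, hi0⟩ := hX1
    have hcl : ∀ u w, C'.Adj u w → (∃ i, X i = true ∧ u = g i) → ∃ i, X i = true ∧ w = g i := by
      rintro u w huw ⟨i, hi, rfl⟩
      obtain ⟨p, rfl | rfl⟩ := cases_NFacA i
      · rcases hnb p w huw with rfl | rfl | rfl
        · exact ⟨_, (hX2 p ((hE p).2 huw)).symm.trans hi, rfl⟩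
        · have h1 := hX2 (p + 5) ((hE5 p).2 huw)
          rw [six_NFacA p] at h1
          exact ⟨_, h1.trans hi, rfl⟩
        · exact ⟨_, (hX3' p ((hF p).2 huw)).symm.trans hi, rfl⟩
      · have h1 := hX4' p hi
        have h2 : F (p + 3) = true := hX4' (p + 3) (by rw [tt_NFacA p]; exact hi)
        have h3 := (hF p).1 h1
        have h4 := (hF (p + 3)).1 h2
        rw [tt_NFacA p] at h4
        have k1 := hX3' p h1
        have k2 := hX3' (p + 3) h2
        rw [tt_NFacA p] at k2
        have hne : g (hNFacA p) ≠ g (hNFacA (p + 3)) := fun h => by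
          have h5 : ∀ p : Fin 6, hNFacA p ≠ hNFacA (p + 3) := by decide
          exact h5 p (hinj h)
        obtain ⟨a, b, hab, hN⟩ := hC.deg (g (tNFacA p))
        have m1 := (hN _).1 h3.symm
        have m2 := (hN _).1 h4.symm
        have m3 := (hN _).1 huw
        have hw : w = g (hNFacA p) ∨ w = g (hNFacA (p + 3)) := by
          rcases m1 with m1 | m1 <;> rcases m2 with m2 | m2 <;> rcases m3 with m3 | m3
          · exact absurd (m1.trans m2.symm) hne
          · exact absurd (m1.trans m2.symm) hne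
          · exact Or.inl (m3.trans m1.symm)
          · exact Or.inr (m3.trans m2.symm)
          · exact Or.inr (m3.trans m2.symm)
          · exact Or.inl (m3.trans m1.symm)
          · exact absurd (m1.trans m2.symm) hne
          · exact absurd (m1.trans m2.symm) hne
        rcases hw with rfl | rfl
        · exact ⟨_, k1.trans hi, rfl⟩
        · exact ⟨_, k2.trans hi, rfl⟩
    obtain ⟨a, ha, ha0, ha1, ha2⟩ := hG.far
    obtain ⟨i, -, hi⟩ := hC.conn (fun v => ∃ i, X i = true ∧ v = g i) ⟨g i0, i0, hi0, rfl⟩ hcl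
      (.inl a)
    rw [hg] at hi
    fin_cases i
    · exact ha (Sum.inl_injective hi)
    · exact absurd hi (by simp [gv])
    · exact absurd hi (by simp [gv])
    · exact absurd hi (by simp [gv])
    · exact absurd hi (by simp [gv])
    · exact absurd hi (by simp [gv])
    · exact ha0 (Sum.inl_injective hi)
    · exact ha1 (Sum.inl_injective hi)
    · exact ha2 (Sum.inl_injective hi)

end Pool.Mnh
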