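import Pool.Agent.Mnh.StepB
import Pool.Agent.Mnh.NFac

/-! The induction step. -/

set_option autoImplicit false

namespace Pool.Mnh

variable {V : Type} {G : SimpleGraph V} {x t0 t1 t2 : V}

/-- The induction step. `r0`: `jump` with `[1, 7]`, `[8, 2, 3, 4, 5]`, `[0, 6]`; `r1`:
`[6, 3, 2, 8]`, `[7, 4, 5]`, `[0, 1]`; `r2`: `[6, 3, 4, 7]`, `[8, 2, 1]`, `[0, 5]`. `dd`:
`u = inl v` with `v ∉ {x, t0, t1, t2}`: `tail1` with `[7, 4, 3, 2, 8, 5]`, `[0, 6, 1]` (second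
alternative) or `tail2` with `[8, 2, 3, 4, 7, 1]`, `[0, 6, 5]` (first alternative); `t1`: `jump`
with `[7]`, `[8, 2, 3, 4, 5]`, `[0, 6, 1]`; `t2`: `[8]`, `[7, 4, 3, 2, 1]`, `[0, 6, 5]`; `h2`:
`[2, 3, 4, 7]`, `[8, 5]`, `[0, 6, 1]`; `h3`: `[3, 4, 7]`, `[8, 2, 1]`, `[0, 6, 5]`; `h4`:
`[4, 3, 2, 8]`, `[7, 1]`, `[0, 6, 5]`. -/
theorem step (hG : Good G x t0 t1 t2) :
    Good (phi G x t0 t1 t2) (Sum.inl x) (Sum.inl t0) (Sum.inr 0) (Sum.inr 4) := by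
  have hx0 : x ≠ t0 := ((hG.nbr t0).2 (Or.inl rfl)).ne
  have hx1 : x ≠ t1 := ((hG.nbr t1).2 (Or.inr (Or.inl rfl))).ne
  have hx2 : x ≠ t2 := ((hG.nbr t2).2 (Or.inr (Or.inr rfl))).ne
  have e2 : ∀ (i j : Fin 9) (w : V ⊕ Fin 5), (∀ e ∈ [i, j], w ≠ gv x t0 t1 t2 e) ↔
      w ≠ gv x t0 t1 t2 i ∧ w ≠ gv x t0 t1 t2 j := by
    intro i j w
    simp
  have e3 : ∀ (i j k : Fin 9) (w : V ⊕ Fin 5), (∀ e ∈ [i, j, k], w ≠ gv x t0 t1 t2 e) ↔
      w ≠ gv x t0 t1 t2 i ∧ w ≠ gv x t0 t1 t2 j ∧ w ≠ gv x t0 t1 t2 k := by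
    intro i j k w
    simp
  have s1 : ∀ w : V ⊕ Fin 5, (∀ e ∈ ([0, 6, 5] : List (Fin 9)), w ≠ gv x t0 t1 t2 e) ↔
      w ≠ Sum.inl x ∧ w ≠ Sum.inl t0 ∧ w ≠ Sum.inr 4 := fun w => e3 0 6 5 w
  have s2 : ∀ w : V ⊕ Fin 5, (∀ e ∈ ([0, 6, 1] : List (Fin 9)), w ≠ gv x t0 t1 t2 e) ↔
      w ≠ Sum.inl x ∧ w ≠ Sum.inl t0 ∧ w ≠ Sum.inr 0 := fun w => e3 0 6 1 w
  constructor
  · exact phi_nfac hG
  · exact phi_pairs hG
  · exact phi_tri hG
  · obtain ⟨a, b, c, d, ha, hb, hc, hd, hac, hbd, h1, h2, h3, h4⟩ := hG.four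
    refine ⟨Sum.inl a, Sum.inl b, Sum.inl c, Sum.inl d, fun h => ha (Sum.inl_injective h),
      fun h => hb (Sum.inl_injective h), fun h => hc (Sum.inl_injective h),
      fun h => hd (Sum.inl_injective h), fun h => hac (Sum.inl_injective h),
      fun h => hbd (Sum.inl_injective h), ⟨h1, fun h => ha h.1, fun h => hb h.1⟩,
      ⟨h2, fun h => hb h.1, fun h => hc h.1⟩, ⟨h3, fun h => hc h.1, fun h => hd h.1⟩,
      ⟨h4, fun h => hd h.1, fun h => ha h.1⟩⟩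
  · rintro (u | i)
    · constructor
      · rintro ⟨h1, h2, h3⟩
        left
        congr 1
        by_contra h4
        exact h2 ⟨rfl, h4⟩
      · rintro (h | h | h)
        · obtain rfl := Sum.inl_injective h
          exact ⟨(hG.nbr _).2 (Or.inl rfl), fun h => h.2 rfl, fun h => hx0 h.1.symm⟩
        · exact absurd h (by simp)
        · exact absurd h (by simp)
    · constructor
      · rintro (⟨-, h | h⟩ | ⟨h, -⟩ | ⟨h, -⟩ | ⟨h, -⟩)
        · rw [h]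
          exact Or.inr (Or.inl rfl)
        · rw [h]
          exact Or.inr (Or.inr rfl)
        · exact absurd h hx0
        · exact absurd h hx1
        · exact absurd h hx2
      · rintro (h | h | h)
        · exact absurd h (by simp)
        · exact Or.inl ⟨rfl, Or.inl (Sum.inr_injective h)⟩
        · exact Or.inl ⟨rfl, Or.inr (Sum.inr_injective h)⟩
  · simp
  · simp
  · intro h
    exact absurd (Sum.inr_injective h) (by decide)
  · refine ⟨Sum.inr 1, by simp, by simp, ?_, ?_⟩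
    · intro h
      exact absurd (Sum.inr_injective h) (by decide)
    · intro h
      exact absurd (Sum.inr_injective h) (by decide)
  · exact (jump hG [1, 7] [8, 2, 3, 4, 5] [0, 6] 1 5 (by decide)).congr fun w => e2 0 6 w
  · exact (jump hG [6, 3, 2, 8] [7, 4, 5] [0, 1] 6 5 (by decide)).congr fun w => e2 0 1 w
  · exact (jump hG [6, 3, 4, 7] [8, 2, 1] [0, 5] 6 1 (by decide)).congr fun w => e2 0 5 w
  · intro u hu1 hu2 hu3 hu4
    rcases vtx_cases G x t0 t1 t2 u with ⟨p, rfl⟩ | ⟨v, rfl, hv⟩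
    · have h2 : p = 0 ∨ p = 1 ∨ p = 2 ∨ p = 3 ∨ p = 4 ∨ p = 5 ∨ p = 6 ∨ p = 7 ∨ p = 8 := by
        fin_cases p <;> simp
      rcases h2 with rfl | rfl | rfl | rfl | rfl | rfl | rfl | rfl | rfl
      · exact absurd rfl hu1
      · exact absurd rfl hu3
      · exact Or.inr ((jump hG [2, 3, 4, 7] [8, 5] [0, 6, 1] 2 5 (by decide)).congr s2)
      · exact Or.inl ((jump hG [3, 4, 7] [8, 2, 1] [0, 6, 5] 3 1 (by decide)).congr s1)
      · exact Or.inl ((jump hG [4, 3, 2, 8] [7, 1] [0, 6, 5] 4 1 (by decide)).congr s1)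
      · exact absurd rfl hu4
      · exact absurd rfl hu2
      · exact Or.inr ((jump hG [7] [8, 2, 3, 4, 5] [0, 6, 1] 7 5 (by decide)).congr s2)
      · exact Or.inl ((jump hG [8] [7, 4, 3, 2, 1] [0, 6, 5] 8 1 (by decide)).congr s1)
    · rcases hG.dd v hv.1 hv.2.1 hv.2.2.1 hv.2.2.2 with h | h
      · exact Or.inr ((tail1 hG hv h [7, 4, 3, 2, 8, 5] [0, 6, 1] 5 (by decide)).congr s2)
      · exact Or.inl ((tail2 hG hv h [8, 2, 3, 4, 7, 1] [0, 6, 5] 1 (by decide)).congr s1)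

end Pool.Mnh
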