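import Pool.Agent.Mnh.Jump

/-! Tables of Hamilton paths of the gadget. -/

set_option autoImplicit false

namespace Pool.Mnh

/-- For nonadjacent `p < 6` and `q`: `l1, l2` with `okJ l1 l2 [] p q`. -/
def tabJ : List (List (List (Fin 9) × List (Fin 9))) := [
  [([], []),
   ([], []),
   ([0, 1, 7, 4, 5, 8], [6, 3, 2]),
   ([0, 1, 2, 8, 5, 4, 7], [6, 3]),
   ([0, 1, 7], [6, 3, 2, 8, 5, 4]),
   ([], []),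
   ([], []),
   ([0, 1, 2, 3, 6], [8, 5, 4, 7]),
   ([0, 1, 2, 3, 6], [7, 4, 5, 8])],
  [([], []),
   ([], []),
   ([], []),
   ([1, 0, 6], [7, 4, 5, 8, 2, 3]),
   ([1, 0, 5, 8, 2, 3, 6], [7, 4]),
   ([1, 0, 6, 3, 2, 8], [7, 4, 5]),
   ([1, 0, 5, 4, 7], [8, 2, 3, 6]),
   ([], []),
   ([1, 0, 5, 4, 7], [6, 3, 2, 8])],
  [([2, 1, 7, 4, 3, 6], [8, 5, 0]),
   ([], []),
   ([], []),
   ([], []),
   ([2, 1, 7], [8, 5, 0, 6, 3, 4]),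
   ([2, 1, 0, 6, 3, 4, 7], [8, 5]),
   ([2, 1, 0, 5, 8], [7, 4, 3, 6]),
   ([2, 1, 0, 5, 8], [6, 3, 4, 7]),
   ([], [])],
  [([3, 2, 1, 7, 4, 5, 8], [6, 0]),
   ([3, 2, 8, 5, 4, 7], [6, 0, 1]),
   ([], []),
   ([], []),
   ([], []),
   ([3, 2, 8], [6, 0, 1, 7, 4, 5]),
   ([], []),
   ([3, 2, 1, 0, 6], [8, 5, 4, 7]),
   ([3, 2, 1, 0, 6], [7, 4, 5, 8])],
  [([4, 3, 6], [7, 1, 2, 8, 5, 0]),
   ([4, 3, 2, 8, 5, 0, 6], [7, 1]),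
   ([4, 3, 6, 0, 5, 8], [7, 1, 2]),
   ([], []),
   ([], []),
   ([], []),
   ([4, 3, 2, 1, 7], [8, 5, 0, 6]),
   ([], []),
   ([4, 3, 2, 1, 7], [6, 0, 5, 8])],
  [([], []),
   ([5, 0, 6, 3, 4, 7], [8, 2, 1]),
   ([5, 0, 1, 7, 4, 3, 6], [8, 2]),
   ([5, 0, 6], [8, 2, 1, 7, 4, 3]),
   ([], []),
   ([], []),
   ([5, 0, 1, 2, 8], [7, 4, 3, 6]),
   ([5, 0, 1, 2, 8], [6, 3, 4, 7]),
   ([], [])]]

/-- For `q < 6`: `l` with `okT l [] 7 q`. -/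
def tab1 : List (List (Fin 9)) := [
  [7, 1, 2, 8, 5, 4, 3, 6, 0],
  [7, 4, 3, 6, 0, 5, 8, 2, 1],
  [7, 1, 0, 6, 3, 4, 5, 8, 2],
  [7, 4, 5, 8, 2, 1, 0, 6, 3],
  [7, 1, 0, 6, 3, 2, 8, 5, 4],
  [7, 4, 3, 6, 0, 1, 2, 8, 5]]

/-- For `q < 6`: `l` with `okT l [] 8 q`. -/
def tab2 : List (List (Fin 9)) := [
  [8, 5, 4, 7, 1, 2, 3, 6, 0],
  [8, 2, 3, 6, 0, 5, 4, 7, 1],
  [8, 5, 0, 6, 3, 4, 7, 1, 2],
  [8, 2, 1, 7, 4, 5, 0, 6, 3],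
  [8, 5, 0, 6, 3, 2, 1, 7, 4],
  [8, 2, 1, 7, 4, 3, 6, 0, 5]]

theorem tabJ_ok : ∀ p q : Fin 9, p < 6 → p ≠ q → gadj p q = false →
    okJ ((tabJ.getD p.val []).getD q.val ([], [])).1 ((tabJ.getD p.val []).getD q.val ([], [])).2
      [] p q = true := by
  decide +kernel

theorem tab1_ok : ∀ q : Fin 9, q < 6 → okT (tab1.getD q.val []) [] 7 q = true := by
  decide +kernel

theorem tab2_ok : ∀ q : Fin 9, q < 6 → okT (tab2.getD q.val []) [] 8 q = true := by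
  decide +kernel

end Pool.Mnh
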